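import Mathlib

/-!
# Doubling, part 2: a word `y⁻¹ h y g` with a uniform permutation `y`

`sum_pf_le`: the average over all permutations `y` of the proportion of the injective `r`-tuples
which are fixed by `y⁻¹ h y g` is at most `2 ^ q / q! + (α β + 3 q / (n - r)) ^ r`, where `α`, `β` are
the proportions of the fixed points of `g`, `h`.
-/

set_option autoImplicit false
set_option linter.unusedSectionVars false
set_option linter.unusedVariables false

namespace Pool.Agent.Helper83.FS

open Finset Equiv

section ext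

variable {α : Type*} [Fintype α] [DecidableEq α]

/-- permutations with prescribed values -/
theorem card_ext {ι : Type*} [Fintype ι] (a : ι → α) (ha : Function.Injective a) (b : ι → α) :
    (univ.filter fun y : Perm α => ∀ i, y (a i) = b i).card ≤
      (Fintype.card α - Fintype.card ι).factorial := by
  classical
  rcases (univ.filter fun y : Perm α => ∀ i, y (a i) = b i).eq_empty_or_nonempty with h | ⟨y0, h0⟩
  · rw [h, card_empty]
    exact Nat.zero_le _
  have h0' := (mem_filter.1 h0).2
  let p : α → Prop := fun x => x ∉ Set.range a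
  have h1 : (univ.filter fun y : Perm α => ∀ i, y (a i) = b i).card ≤
      Fintype.card {f : Perm α // ∀ x, ¬ p x → f x = x} := by
    rw [Fintype.card_subtype]
    refine card_le_card_of_injOn (fun y => y0⁻¹ * y) ?_ ?_
    · intro y hy
      have hy' := (mem_filter.1 hy).2
      rw [mem_coe, mem_filter]
      refine ⟨mem_univ _, fun x hx => ?_⟩
      simp only [p, not_not] at hx
      obtain ⟨i, rfl⟩ := hx
      rw [Perm.mul_apply, hy', ← h0', ← Perm.mul_apply, inv_mul_cancel, Perm.one_apply]
    · intro y _ y' _ h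
      exact mul_left_cancel h
  have h2 : Fintype.card {f : Perm α // ∀ x, ¬ p x → f x = x} =
      (Fintype.card {x // p x}).factorial := by
    rw [← Fintype.card_congr (Perm.subtypeEquivSubtypePerm p), Fintype.card_perm]
  have h3 : Fintype.card {x // p x} = Fintype.card α - Fintype.card ι := by
    have := Fintype.card_compl_set (Set.range a)
    rw [Set.card_range_of_injective ha] at this
    exact this
  rw [h2, h3] at h1
  exact h1

/-- injective tuples in a finite set -/
theorem card_tuples (m : ℕ) (C : Finset α) :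
    (univ.filter fun x : Fin m ↪ α => ∀ i, x i ∈ C).card = C.card.descFactorial m := by
  classical
  have h1 : Fintype.card {x : Fin m ↪ α // ∀ i, x i ∈ C} = Fintype.card (Fin m ↪ C) := by
    apply Fintype.card_congr
    refine ⟨fun x => ⟨fun i => ⟨x.1 i, x.2 i⟩, fun i j h => x.1.injective (congrArg Subtype.val h)⟩,
      fun x => ⟨x.trans (Function.Embedding.subtype _), fun i => (x i).2⟩, ?_, ?_⟩
    · intro x
      apply Subtype.ext
      ext i
      rfl
    · intro x
      ext i
      rfl
  rw [← Fintype.card_subtype, h1, Fintype.card_embedding_eq, Fintype.card_fin, Fintype.card_coe]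

/-- sets which are mapped into their complement -/
theorem exists_indep (g : Perm α) : ∀ (N : ℕ) (S : Finset α), S.card ≤ N → (∀ x ∈ S, g x ≠ x) →
    ∃ Q ⊆ S, S.card ≤ 3 * Q.card ∧ ∀ x ∈ Q, g x ∉ Q := by
  intro N
  induction N with
  | zero =>
    intro S hS _
    exact ⟨∅, empty_subset _, by omega, by simp⟩
  | succ N ih =>
    intro S hS hg
    rcases S.eq_empty_or_nonempty with h | ⟨x, hx⟩
    · subst h
      exact ⟨∅, empty_subset _, by simp, by simp⟩
    obtain ⟨T, hT⟩ : ∃ T, T = ((S.erase x).erase (g x)).erase (g⁻¹ x) := ⟨_, rfl⟩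
    have hTS : T ⊆ S := by
      rw [hT]
      exact (erase_subset _ _).trans ((erase_subset _ _).trans (erase_subset _ _))
    have hc1 : S.card ≤ T.card + 3 := by
      have h1 : (S.erase x).card + 1 = S.card := card_erase_add_one hx
      have h2 := pred_card_le_card_erase (s := S.erase x) (a := g x)
      have h3 := pred_card_le_card_erase (s := (S.erase x).erase (g x)) (a := g⁻¹ x)
      rw [← hT] at h3
      omega
    have hc2 : T.card ≤ N := by
      have h1 : (S.erase x).card + 1 = S.card := card_erase_add_one hx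
      have h2 : T.card ≤ (S.erase x).card := by
        rw [hT]
        exact card_le_card ((erase_subset _ _).trans (erase_subset _ _))
      omega
    obtain ⟨Q, hQ, hQc, hQi⟩ := ih T hc2 fun y hy => hg y (hTS hy)
    have hxQ : x ∉ Q := fun h => by
      have := hQ h
      rw [hT] at this
      exact absurd rfl (mem_erase.1 (mem_erase.1 (mem_erase.1 this).2).2).1
    have hgQ : g x ∉ Q := fun h => by
      have := hQ h
      rw [hT] at this
      exact absurd rfl (mem_erase.1 (mem_erase.1 this).2).1
    have hgQ' : g⁻¹ x ∉ Q := fun h => by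
      have := hQ h
      rw [hT] at this
      exact absurd rfl (mem_erase.1 this).1
    refine ⟨insert x Q, ?_, ?_, ?_⟩
    · intro y hy
      rcases mem_insert.1 hy with rfl | hy
      · exact hx
      · exact hTS (hQ hy)
    · rw [card_insert_of_notMem hxQ]
      omega
    · intro y hy
      rw [mem_insert, not_or]
      rcases mem_insert.1 hy with rfl | hy
      · exact ⟨hg y hx, hgQ⟩
      · refine ⟨fun h => hgQ' ?_, hQi y hy⟩
        rw [← h, ← Perm.mul_apply, inv_mul_cancel, Perm.one_apply]
        exact hy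

/-- the points where `y` makes an accidental coincidence -/
def acc2 (g h y : Perm α) : Finset α := univ.filter fun x => g x ≠ x ∧ h (y (g x)) = y x

/-- the fixed points of `g` which `y` maps to fixed points of `h` -/
def F1 (g h y : Perm α) : Finset α := univ.filter fun x => g x = x ∧ h (y x) = y x

theorem fix_le (g h y : Perm α) :
    (univ.filter fun x => (y⁻¹ * h * y * g) x = x).card ≤ (F1 g h y).card + (acc2 g h y).card := by
  refine le_trans (card_le_card ?_) (card_union_le _ _)
  intro x hx
  have hx' := (mem_filter.1 hx).2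
  simp only [Perm.mul_apply] at hx'
  rw [Perm.inv_eq_iff_eq] at hx'
  rw [mem_union]
  by_cases hg : g x = x
  · left
    rw [hg] at hx'
    exact mem_filter.2 ⟨mem_univ _, hg, hx'⟩
  · right
    exact mem_filter.2 ⟨mem_univ _, hg, hx'⟩

/-- many accidental coincidences are rare -/
theorem card_acc2 (g h : Perm α) (q : ℕ) :
    (univ.filter fun y : Perm α => 3 * q ≤ (acc2 g h y).card).card ≤
      (Fintype.card α).choose q * ((Fintype.card α).descFactorial q *
        (Fintype.card α - 2 * q).factorial) := by
  classical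
  obtain ⟨QQ, hQQ⟩ : ∃ QQ : Finset (Finset α), QQ = (powersetCard q univ).filter
      fun Q => ∀ x ∈ Q, g x ∉ Q := ⟨_, rfl⟩
  have h1 : (univ.filter fun y : Perm α => 3 * q ≤ (acc2 g h y).card) ⊆
      QQ.biUnion fun Q => univ.filter fun y : Perm α => ∀ x ∈ Q, h (y (g x)) = y x := by
    intro y hy
    have hy' := (mem_filter.1 hy).2
    obtain ⟨Q, hQ, hQc, hQi⟩ := exists_indep g _ (acc2 g h y) le_rfl fun x hx =>
      (mem_filter.1 hx).2.1
    have hq : q ≤ Q.card := by omega
    obtain ⟨Q', hQ', hQ'c⟩ := exists_subset_card_eq hq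
    rw [mem_biUnion]
    refine ⟨Q', ?_, mem_filter.2 ⟨mem_univ _, fun x hx => ?_⟩⟩
    · rw [hQQ, mem_filter, mem_powersetCard]
      exact ⟨⟨subset_univ _, hQ'c⟩, fun x hx h' => hQi x (hQ' hx) (hQ' h')⟩
    · exact (mem_filter.1 (hQ (hQ' hx))).2.2
  refine (card_le_card h1).trans (card_biUnion_le.trans ?_)
  have h2 : ∀ Q ∈ QQ, (univ.filter fun y : Perm α => ∀ x ∈ Q, h (y (g x)) = y x).card ≤
      (Fintype.card α).descFactorial q * (Fintype.card α - 2 * q).factorial := by
    intro Q hQ
    rw [hQQ, mem_filter, mem_powersetCard] at hQ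
    obtain ⟨⟨_, hQc⟩, hQi⟩ := hQ
    have h3 : (univ.filter fun y : Perm α => ∀ x ∈ Q, h (y (g x)) = y x) ⊆
        (univ : Finset (Q ↪ α)).biUnion fun b => univ.filter fun y : Perm α =>
          ∀ i : Q ⊕ Q, y (Sum.elim (fun x : Q => (x : α)) (fun x : Q => g x) i) =
            Sum.elim (fun x : Q => b x) (fun x : Q => h⁻¹ (b x)) i := by
      intro y hy
      have hy' := (mem_filter.1 hy).2
      rw [mem_biUnion]
      refine ⟨⟨fun x => y x, fun x x' hxx => Subtype.ext (y.injective hxx)⟩, mem_univ _,
        mem_filter.2 ⟨mem_univ _, ?_⟩⟩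
      rintro (x | x)
      · rfl
      · show y (g x) = h⁻¹ (y x)
        rw [← hy' x x.2, ← Perm.mul_apply h⁻¹ h, inv_mul_cancel, Perm.one_apply]
    refine (card_le_card h3).trans (card_biUnion_le.trans ?_)
    have h4 : ∀ b ∈ (univ : Finset (Q ↪ α)), (univ.filter fun y : Perm α =>
        ∀ i : Q ⊕ Q, y (Sum.elim (fun x : Q => (x : α)) (fun x : Q => g x) i) =
          Sum.elim (fun x : Q => b x) (fun x : Q => h⁻¹ (b x)) i).card ≤
        (Fintype.card α - 2 * q).factorial := by
      intro b _
      have hinj : Function.Injective (Sum.elim (fun x : Q => (x : α)) (fun x : Q => g x)) := by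
        rintro (x | x) (x' | x') hxx
        · exact congrArg _ (Subtype.ext hxx)
        · exfalso
          have hxx' : (x : α) = g x' := hxx
          exact hQi x' x'.2 (hxx' ▸ x.2)
        · exfalso
          have hxx' : g x = (x' : α) := hxx
          exact hQi x x.2 (hxx' ▸ x'.2)
        · have hxx' : g x = g x' := hxx
          exact congrArg _ (Subtype.ext (g.injective hxx'))
      have h5 := card_ext _ hinj (Sum.elim (fun x : Q => b x) (fun x : Q => h⁻¹ (b x)))
      rw [Fintype.card_sum, Fintype.card_coe, hQc, ← two_mul] at h5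
      exact h5
    refine (sum_le_sum h4).trans ?_
    rw [sum_const, card_univ, Fintype.card_embedding_eq, Fintype.card_coe, hQc, smul_eq_mul]
  refine (sum_le_sum h2).trans ?_
  rw [sum_const, smul_eq_mul]
  apply Nat.mul_le_mul_right
  rw [hQQ]
  refine (card_filter_le _ _).trans ?_
  rw [card_powersetCard, card_univ]

/-- factorial moments of the number of points mapped from a set to another one -/
theorem sum_F1 (g h : Perm α) (m : ℕ) :
    ∑ y : Perm α, (F1 g h y).card.descFactorial m ≤
      (univ.filter fun x => g x = x).card.descFactorial m *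
        ((univ.filter fun x => h x = x).card.descFactorial m *
          (Fintype.card α - m).factorial) := by
  classical
  obtain ⟨A, hA⟩ : ∃ A, A = univ.filter fun x => g x = x := ⟨_, rfl⟩
  obtain ⟨B, hB⟩ : ∃ B, B = univ.filter fun x => h x = x := ⟨_, rfl⟩
  rw [← hA, ← hB]
  have h1 : ∀ y : Perm α, (F1 g h y).card.descFactorial m =
      ∑ x ∈ univ.filter (fun x : Fin m ↪ α => ∀ i, x i ∈ A),
        if ∀ i, y (x i) ∈ B then 1 else 0 := by
    intro y
    rw [← card_tuples, ← sum_filter, filter_filter, sum_const, smul_eq_mul, mul_one]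
    congr 1
    apply filter_congr
    intro x _
    rw [hA, hB]
    simp only [F1, mem_filter, mem_univ, true_and]
    exact forall_and
  rw [sum_congr rfl fun y _ => h1 y, sum_comm]
  have h2 : ∀ x ∈ univ.filter (fun x : Fin m ↪ α => ∀ i, x i ∈ A),
      ∑ y : Perm α, (if ∀ i, y (x i) ∈ B then 1 else 0) ≤
        B.card.descFactorial m * (Fintype.card α - m).factorial := by
    intro x _
    rw [← sum_filter, sum_const, smul_eq_mul, mul_one]
    have h3 : (univ.filter fun y : Perm α => ∀ i, y (x i) ∈ B) ⊆
        (univ.filter fun b : Fin m ↪ α => ∀ i, b i ∈ B).biUnion fun b =>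
          univ.filter fun y : Perm α => ∀ i, y (x i) = b i := by
      intro y hy
      have hy' := (mem_filter.1 hy).2
      rw [mem_biUnion]
      exact ⟨x.trans y.toEmbedding, mem_filter.2 ⟨mem_univ _, hy'⟩,
        mem_filter.2 ⟨mem_univ _, fun i => rfl⟩⟩
    refine (card_le_card h3).trans (card_biUnion_le.trans ?_)
    have h4 : ∀ b ∈ univ.filter (fun b : Fin m ↪ α => ∀ i, b i ∈ B),
        (univ.filter fun y : Perm α => ∀ i, y (x i) = b i).card ≤
          (Fintype.card α - m).factorial := by
      intro b _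
      have h5 := card_ext x x.injective b
      rw [Fintype.card_fin] at h5
      convert h5
    refine (sum_le_sum h4).trans ?_
    rw [sum_const, smul_eq_mul, card_tuples]
  refine (sum_le_sum h2).trans ?_
  rw [sum_const, smul_eq_mul, card_tuples]

end ext

/-- Vandermonde for falling factorials -/
theorem add_descFact (F M r : ℕ) : (F + M).descFactorial r =
    ∑ i ∈ range (r + 1), r.choose i * (F.descFactorial i * M.descFactorial (r - i)) := by
  rw [Nat.descFactorial_eq_factorial_mul_choose, Nat.add_choose_eq, mul_sum,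
    Nat.sum_antidiagonal_eq_sum_range_succ_mk]
  apply sum_congr rfl
  intro i hi
  have hi' : i ≤ r := Nat.lt_succ_iff.1 (mem_range.1 hi)
  rw [Nat.descFactorial_eq_factorial_mul_choose, Nat.descFactorial_eq_factorial_mul_choose]
  have h1 := Nat.choose_mul_factorial_mul_factorial hi'
  calc r.factorial * (F.choose i * M.choose (r - i)) =
        (r.choose i * i.factorial * (r - i).factorial) * (F.choose i * M.choose (r - i)) := by
        rw [h1]
    _ = _ := by ring

theorem descFact_ratio_le (n F i : ℕ) (hF : F ≤ n) :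
    (F.descFactorial i : ℝ) * (n : ℝ) ^ i ≤ (F : ℝ) ^ i * (n.descFactorial i : ℝ) := by
  induction i with
  | zero => simp
  | succ i ih =>
    rw [Nat.descFactorial_succ, Nat.descFactorial_succ]
    push_cast
    have h1 : ((F - i : ℕ) : ℝ) * n ≤ F * ((n - i : ℕ) : ℝ) := by
      rcases Nat.lt_or_ge F i with h | h
      · rw [Nat.sub_eq_zero_of_le h.le, Nat.cast_zero, zero_mul]
        positivity
      · have h2 : (F : ℝ) ≤ n := by exact_mod_cast hF
        rw [Nat.cast_sub h, Nat.cast_sub (h.trans hF)]
        have : (0 : ℝ) ≤ i := Nat.cast_nonneg i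
        nlinarith
    calc ((F - i : ℕ) : ℝ) * (F.descFactorial i : ℝ) * (n : ℝ) ^ (i + 1) =
          (((F - i : ℕ) : ℝ) * n) * ((F.descFactorial i : ℝ) * (n : ℝ) ^ i) := by ring
      _ ≤ (F * ((n - i : ℕ) : ℝ)) * ((F : ℝ) ^ i * (n.descFactorial i : ℝ)) :=
          mul_le_mul h1 ih (by positivity) (by positivity)
      _ = _ := by ring

/-- the average over `y` of the proportion of the fixed tuples of `y⁻¹ h y g` -/
theorem sum_pf_le (n r q : ℕ) (hn : 0 < n) (hr : 2 * r ≤ n) (hq : 4 * q ≤ n)
    (g h : Perm (Fin n)) :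
    ∑ y : Perm (Fin n), ((univ.filter fun x => (y⁻¹ * h * y * g) x = x).card.descFactorial r : ℝ) /
        (n.descFactorial r : ℝ) ≤
      (2 ^ q / (q.factorial : ℝ) +
        (((univ.filter fun x => g x = x).card : ℝ) / n * (((univ.filter fun x => h x = x).card : ℝ) / n) +
          (3 * q : ℕ) / ((n : ℝ) - r)) ^ r) * (n.factorial : ℝ) := by
  classical
  obtain ⟨a, ha⟩ : ∃ a, a = (univ.filter fun x => g x = x).card := ⟨_, rfl⟩
  obtain ⟨b, hb⟩ : ∃ b, b = (univ.filter fun x => h x = x).card := ⟨_, rfl⟩
  rw [← ha, ← hb]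
  have han : a ≤ n := by
    rw [ha]
    exact (card_le_univ _).trans (by rw [Fintype.card_fin])
  have hbn : b ≤ n := by
    rw [hb]
    exact (card_le_univ _).trans (by rw [Fintype.card_fin])
  have hn0 : (0 : ℝ) < n := by exact_mod_cast hn
  have hrn : r ≤ n := by omega
  have hDpos : ∀ i, i ≤ n → (0 : ℝ) < (n.descFactorial i : ℝ) := fun i hi => by
    exact_mod_cast Nat.descFactorial_pos.2 hi
  have hnr : (0 : ℝ) < (n : ℝ) - r := by
    have : (2 : ℝ) * r ≤ n := by exact_mod_cast hr
    have h2 : (0 : ℝ) ≤ r := Nat.cast_nonneg r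
    linarith
  -- pointwise
  have hpt : ∀ y : Perm (Fin n),
      ((univ.filter fun x => (y⁻¹ * h * y * g) x = x).card.descFactorial r : ℝ) /
        (n.descFactorial r : ℝ) ≤ (if 3 * q ≤ (acc2 g h y).card then (1 : ℝ) else 0) +
        (((F1 g h y).card + 3 * q).descFactorial r : ℝ) / (n.descFactorial r : ℝ) := by
    intro y
    split_ifs with hc
    · have h1 : ((univ.filter fun x => (y⁻¹ * h * y * g) x = x).card.descFactorial r : ℝ) ≤
          (n.descFactorial r : ℝ) := by
        exact_mod_cast Nat.descFactorial_le r ((card_le_univ _).trans (by rw [Fintype.card_fin]))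
      have h2 := (div_le_one (hDpos r hrn)).2 h1
      have h3 : (0 : ℝ) ≤ (((F1 g h y).card + 3 * q).descFactorial r : ℝ) /
          (n.descFactorial r : ℝ) := by positivity
      linarith
    · rw [zero_add]
      apply div_le_div_of_nonneg_right _ (hDpos r hrn).le
      have h1 := fix_le g h y
      exact_mod_cast Nat.descFactorial_le r (by omega)
  -- the first part
  have hfirst : ∑ y : Perm (Fin n), (if 3 * q ≤ (acc2 g h y).card then (1 : ℝ) else 0) ≤
      2 ^ q / (q.factorial : ℝ) * (n.factorial : ℝ) := by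
    rw [← sum_filter, sum_const, nsmul_eq_mul, mul_one]
    have h1 := card_acc2 g h q
    rw [Fintype.card_fin] at h1
    have h1' : ((univ.filter fun y : Perm (Fin n) => 3 * q ≤ (acc2 g h y).card).card : ℝ) ≤
        (n.choose q : ℝ) * ((n.descFactorial q : ℝ) * ((n - 2 * q).factorial : ℝ)) := by
      exact_mod_cast h1
    refine h1'.trans ?_
    -- n! = (n)_q (n-q)_q (n-2q)!
    have h2 : n.factorial = (n - 2 * q).factorial * ((n - q).descFactorial q * n.descFactorial q) := by
      have e1 := Nat.factorial_mul_descFactorial (show q ≤ n by omega)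
      have e2 := Nat.factorial_mul_descFactorial (show q ≤ n - q by omega)
      rw [← e1, ← e2]
      have e3 : n - q - q = n - 2 * q := by omega
      rw [e3]
      ring
    have h3 : (n.choose q : ℝ) * (q.factorial : ℝ) ≤ (n : ℝ) ^ q := by
      have e1 := Nat.descFactorial_eq_factorial_mul_choose n q
      have e2 := Nat.descFactorial_le_pow n q
      have e3 : n.choose q * q.factorial ≤ n ^ q := by
        rw [mul_comm, ← e1]
        exact e2
      exact_mod_cast e3
    have h4 : (n : ℝ) ^ q ≤ 2 ^ q * ((n - q).descFactorial q : ℝ) := by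
      have e1 := Nat.pow_sub_le_descFactorial (n - q) q
      have e2 : ((n - q + 1 - q : ℕ) : ℝ) ^ q ≤ ((n - q).descFactorial q : ℝ) := by exact_mod_cast e1
      have e3 : (n : ℝ) ≤ 2 * ((n - q + 1 - q : ℕ) : ℝ) := by
        have : n ≤ 2 * (n - q + 1 - q) := by omega
        exact_mod_cast this
      calc (n : ℝ) ^ q ≤ (2 * ((n - q + 1 - q : ℕ) : ℝ)) ^ q := pow_le_pow_left₀ hn0.le e3 q
        _ = 2 ^ q * ((n - q + 1 - q : ℕ) : ℝ) ^ q := mul_pow _ _ _
        _ ≤ _ := mul_le_mul_of_nonneg_left e2 (by positivity)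
    have hqf : (0 : ℝ) < (q.factorial : ℝ) := by exact_mod_cast Nat.factorial_pos q
    rw [div_mul_eq_mul_div, le_div_iff₀ hqf, h2]
    push_cast
    have h5 := h3.trans h4
    have h6 := mul_le_mul_of_nonneg_right h5 (by positivity :
      (0 : ℝ) ≤ (n.descFactorial q : ℝ) * ((n - 2 * q).factorial : ℝ))
    linarith
  -- the second part
  have hsecond : ∑ y : Perm (Fin n), (((F1 g h y).card + 3 * q).descFactorial r : ℝ) /
      (n.descFactorial r : ℝ) ≤
      ((a : ℝ) / n * ((b : ℝ) / n) + (3 * q : ℕ) / ((n : ℝ) - r)) ^ r * (n.factorial : ℝ) := by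
    rw [← sum_div, div_le_iff₀ (hDpos r hrn)]
    have h1 : ∑ y : Perm (Fin n), (((F1 g h y).card + 3 * q).descFactorial r : ℝ) =
        ∑ i ∈ range (r + 1), (r.choose i : ℝ) * ((3 * q).descFactorial (r - i) : ℝ) *
          ∑ y : Perm (Fin n), ((F1 g h y).card.descFactorial i : ℝ) := by
      have e1 : ∀ y : Perm (Fin n), (((F1 g h y).card + 3 * q).descFactorial r : ℝ) =
          ∑ i ∈ range (r + 1), (r.choose i : ℝ) * ((3 * q).descFactorial (r - i) : ℝ) *
            ((F1 g h y).card.descFactorial i : ℝ) := by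
        intro y
        rw [add_descFact]
        push_cast
        exact sum_congr rfl fun i _ => by ring
      rw [sum_congr rfl fun y _ => e1 y, sum_comm]
      exact sum_congr rfl fun i _ => by rw [mul_sum]
    rw [h1, add_pow, sum_mul, sum_mul]
    apply sum_le_sum
    intro i hi
    have hi' : i ≤ r := Nat.lt_succ_iff.1 (mem_range.1 hi)
    have h2 : ∑ y : Perm (Fin n), ((F1 g h y).card.descFactorial i : ℝ) ≤
        (a.descFactorial i : ℝ) * ((b.descFactorial i : ℝ) * ((n - i).factorial : ℝ)) := by
      have := sum_F1 g h i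
      rw [Fintype.card_fin, ← ha, ← hb] at this
      exact_mod_cast this
    have h3 : (n.factorial : ℝ) = ((n - i).factorial : ℝ) * (n.descFactorial i : ℝ) := by
      have := Nat.factorial_mul_descFactorial (show i ≤ n by omega)
      exact_mod_cast this.symm
    have h4 : ((3 * q).descFactorial (r - i) : ℝ) ≤ ((3 * q : ℕ) : ℝ) ^ (r - i) := by
      exact_mod_cast Nat.descFactorial_le_pow (3 * q) (r - i)
    have h5 : (n.descFactorial i : ℝ) * ((n : ℝ) - r) ^ (r - i) ≤ (n.descFactorial r : ℝ) := by
      have e1 : (n - i).descFactorial (r - i) * n.descFactorial i = n.descFactorial r := by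
        have := Nat.descFactorial_mul_descFactorial (n := n) hi'
        exact this
      have e2 := Nat.pow_sub_le_descFactorial (n - i) (r - i)
      have e3 : ((n : ℝ) - r) ^ (r - i) ≤ ((n - i).descFactorial (r - i) : ℝ) := by
        have e4 : ((n - i + 1 - (r - i) : ℕ) : ℝ) ^ (r - i) ≤
            ((n - i).descFactorial (r - i) : ℝ) := by exact_mod_cast e2
        refine le_trans (pow_le_pow_left₀ hnr.le ?_ _) e4
        have e5 : ((n - r : ℕ) : ℝ) ≤ ((n - i + 1 - (r - i) : ℕ) : ℝ) := by
          have : n - r ≤ n - i + 1 - (r - i) := by omega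
          exact_mod_cast this
        rw [Nat.cast_sub hrn] at e5
        exact e5
      rw [← e1]
      push_cast
      rw [mul_comm]
      exact mul_le_mul_of_nonneg_right e3 (Nat.cast_nonneg _)
    have h6 := descFact_ratio_le n a i han
    have h7 := descFact_ratio_le n b i hbn
    have hni : (0 : ℝ) < (n : ℝ) ^ i := by positivity
    have hA : (a.descFactorial i : ℝ) ≤ ((a : ℝ) / n) ^ i * (n.descFactorial i : ℝ) := by
      rw [div_pow, div_mul_eq_mul_div, le_div_iff₀ hni]
      exact h6
    have hB : (b.descFactorial i : ℝ) ≤ ((b : ℝ) / n) ^ i * (n.descFactorial i : ℝ) := by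
      rw [div_pow, div_mul_eq_mul_div, le_div_iff₀ hni]
      exact h7
    have hM : ((3 * q).descFactorial (r - i) : ℝ) * (n.descFactorial i : ℝ) ≤
        ((3 * q : ℕ) / ((n : ℝ) - r)) ^ (r - i) * (n.descFactorial r : ℝ) := by
      have e1 : ((3 * q : ℕ) : ℝ) ^ (r - i) =
          ((3 * q : ℕ) / ((n : ℝ) - r)) ^ (r - i) * ((n : ℝ) - r) ^ (r - i) := by
        rw [← mul_pow, div_mul_cancel₀ _ hnr.ne']
      calc ((3 * q).descFactorial (r - i) : ℝ) * (n.descFactorial i : ℝ) ≤
            ((3 * q : ℕ) : ℝ) ^ (r - i) * (n.descFactorial i : ℝ) :=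
            mul_le_mul_of_nonneg_right h4 (Nat.cast_nonneg _)
        _ = ((3 * q : ℕ) / ((n : ℝ) - r)) ^ (r - i) *
            ((n.descFactorial i : ℝ) * ((n : ℝ) - r) ^ (r - i)) := by rw [e1]; ring
        _ ≤ _ := mul_le_mul_of_nonneg_left h5 (by positivity)
    calc (r.choose i : ℝ) * ((3 * q).descFactorial (r - i) : ℝ) *
          ∑ y : Perm (Fin n), ((F1 g h y).card.descFactorial i : ℝ) ≤
          (r.choose i : ℝ) * ((3 * q).descFactorial (r - i) : ℝ) *
          ((a.descFactorial i : ℝ) * ((b.descFactorial i : ℝ) * ((n - i).factorial : ℝ))) :=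
          mul_le_mul_of_nonneg_left h2 (by positivity)
      _ ≤ (r.choose i : ℝ) * ((3 * q).descFactorial (r - i) : ℝ) *
          ((((a : ℝ) / n) ^ i * (n.descFactorial i : ℝ)) *
            ((((b : ℝ) / n) ^ i * (n.descFactorial i : ℝ)) * ((n - i).factorial : ℝ))) := by
          apply mul_le_mul_of_nonneg_left _ (by positivity)
          apply mul_le_mul hA _ (by positivity) (by positivity)
          exact mul_le_mul_of_nonneg_right hB (by positivity)
      _ = (r.choose i : ℝ) * (((a : ℝ) / n) ^ i * ((b : ℝ) / n) ^ i) *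
          (((3 * q).descFactorial (r - i) : ℝ) * (n.descFactorial i : ℝ)) *
          (n.factorial : ℝ) := by rw [h3]; ring
      _ ≤ (r.choose i : ℝ) * (((a : ℝ) / n) ^ i * ((b : ℝ) / n) ^ i) *
          (((3 * q : ℕ) / ((n : ℝ) - r)) ^ (r - i) * (n.descFactorial r : ℝ)) *
          (n.factorial : ℝ) := by
          apply mul_le_mul_of_nonneg_right _ (by positivity)
          exact mul_le_mul_of_nonneg_left hM (by positivity)
      _ = _ := by rw [mul_pow]; ring
  calc _ ≤ ∑ y : Perm (Fin n), ((if 3 * q ≤ (acc2 g h y).card then (1 : ℝ) else 0) +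
        (((F1 g h y).card + 3 * q).descFactorial r : ℝ) / (n.descFactorial r : ℝ)) :=
        sum_le_sum fun y _ => hpt y
    _ ≤ 2 ^ q / (q.factorial : ℝ) * (n.factorial : ℝ) +
        ((a : ℝ) / n * ((b : ℝ) / n) + (3 * q : ℕ) / ((n : ℝ) - r)) ^ r * (n.factorial : ℝ) := by
        rw [sum_add_distrib]
        exact add_le_add hfirst hsecond
    _ = _ := by ring

end Pool.Agent.Helper83.FS
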