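import Pool.Agent.Helper83.FS.DblLin
import Pool.Agent.Helper83.FS.DblCount
import Pool.Agent.Helper38.FS.Mono
import Pool.Agent.Helper60.AK.LZ

/-!
# Doubling

`dbl`: one fresh generator multiplies the rate by `3 / 2` for all but a proportion `exp (-c r)` of
the choices, uniformly in the levels `r` with `r₀ ≤ r ≤ n / L₁`.
-/

set_option autoImplicit false
set_option linter.unusedVariables false

namespace Pool.Agent.Helper83.FS

open Finset Equiv
open Pool.Agent.Helper3.AK (Alt lazyLaw)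
open Pool.Agent.Helper38.FS (rp Win S_DBL)
open Pool.Agent.Helper10.FS (pf)

section prob

variable {G : Type} [Fintype G]

theorem moment (κ φ : G → ℝ) (h0 : ∀ g, 0 ≤ κ g) (h1 : ∑ g, κ g = 1) (p0 : ∀ g, 0 ≤ φ g)
    (β : ℝ) (r m : ℕ) (hm : m ≤ r) (hr : ∑ g, κ g * φ g ^ r ≤ Real.exp (-(β * r))) :
    ∑ g, κ g * φ g ^ m ≤ 2 * Real.exp (-(β * m)) := by
  have hpt : ∀ g, φ g ^ m ≤
      Real.exp (-(β * m)) + Real.exp (β * ((r - m : ℕ) : ℝ)) * φ g ^ r := by
    intro g
    have hp := p0 g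
    rcases le_or_gt (φ g) (Real.exp (-β)) with h | h
    · have e1 : φ g ^ m ≤ Real.exp (-β) ^ m := pow_le_pow_left₀ hp h m
      rw [← Real.exp_nat_mul] at e1
      have e2 : (m : ℝ) * -β = -(β * m) := by ring
      rw [e2] at e1
      have e3 : 0 ≤ Real.exp (β * ((r - m : ℕ) : ℝ)) * φ g ^ r := by positivity
      linarith
    · have e1 : Real.exp (-β) ^ (r - m) ≤ φ g ^ (r - m) :=
        pow_le_pow_left₀ (Real.exp_pos _).le h.le _
      have e2 : Real.exp (β * ((r - m : ℕ) : ℝ)) * Real.exp (-β) ^ (r - m) = 1 := by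
        rw [← Real.exp_nat_mul, ← Real.exp_add]
        have : β * ((r - m : ℕ) : ℝ) + ((r - m : ℕ) : ℝ) * -β = 0 := by ring
        rw [this, Real.exp_zero]
      have e3 : φ g ^ r = φ g ^ (r - m) * φ g ^ m := by rw [← pow_add, Nat.sub_add_cancel hm]
      have e4 : φ g ^ m =
          Real.exp (β * ((r - m : ℕ) : ℝ)) * (Real.exp (-β) ^ (r - m) * φ g ^ m) := by
        rw [← mul_assoc, e2, one_mul]
      have e5 : Real.exp (β * ((r - m : ℕ) : ℝ)) * (Real.exp (-β) ^ (r - m) * φ g ^ m) ≤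
          Real.exp (β * ((r - m : ℕ) : ℝ)) * (φ g ^ (r - m) * φ g ^ m) := by
        apply mul_le_mul_of_nonneg_left _ (Real.exp_pos _).le
        exact mul_le_mul_of_nonneg_right e1 (pow_nonneg hp m)
      rw [← e4, ← e3] at e5
      linarith [Real.exp_pos (-(β * m))]
  calc ∑ g, κ g * φ g ^ m ≤
        ∑ g, κ g * (Real.exp (-(β * m)) + Real.exp (β * ((r - m : ℕ) : ℝ)) * φ g ^ r) :=
        sum_le_sum fun g _ => mul_le_mul_of_nonneg_left (hpt g) (h0 g)
    _ = Real.exp (-(β * m)) * ∑ g, κ g +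
        Real.exp (β * ((r - m : ℕ) : ℝ)) * ∑ g, κ g * φ g ^ r := by
        rw [mul_sum, mul_sum, ← sum_add_distrib]
        exact sum_congr rfl fun g _ => by ring
    _ ≤ _ := by
        rw [h1, mul_one]
        have := mul_le_mul_of_nonneg_left hr (Real.exp_pos (β * ((r - m : ℕ) : ℝ))).le
        rw [← Real.exp_add] at this
        have e : β * ((r - m : ℕ) : ℝ) + -(β * r) = -(β * m) := by
          rw [Nat.cast_sub hm]
          ring
        rw [e] at this
        linarith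

theorem moment2 (κ φ : G → ℝ) (h0 : ∀ g, 0 ≤ κ g) (h1 : ∑ g, κ g = 1) (p0 : ∀ g, 0 ≤ φ g)
    (β δ : ℝ) (hδ : 0 ≤ δ) (r : ℕ) (hr : ∑ g, κ g * φ g ^ r ≤ Real.exp (-(β * r))) :
    ∑ h, ∑ g, κ h * κ g * (φ g * φ h + δ) ^ r ≤ 4 * (Real.exp (-(2 * β)) + δ) ^ r := by
  have e1 : ∀ h g, κ h * κ g * (φ g * φ h + δ) ^ r = ∑ m ∈ range (r + 1),
      (δ ^ (r - m) * (r.choose m : ℝ)) * ((κ h * φ h ^ m) * (κ g * φ g ^ m)) := by
    intro h g
    rw [add_pow, mul_sum]
    refine sum_congr rfl fun m _ => ?_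
    rw [mul_pow]
    ring
  have e2 : ∑ h, ∑ g, κ h * κ g * (φ g * φ h + δ) ^ r = ∑ m ∈ range (r + 1),
      (δ ^ (r - m) * (r.choose m : ℝ)) * ((∑ g, κ g * φ g ^ m) * (∑ g, κ g * φ g ^ m)) := by
    calc ∑ h, ∑ g, κ h * κ g * (φ g * φ h + δ) ^ r = ∑ h, ∑ m ∈ range (r + 1),
          (δ ^ (r - m) * (r.choose m : ℝ)) * ((κ h * φ h ^ m) * ∑ g, κ g * φ g ^ m) := by
          refine sum_congr rfl fun h _ => ?_
          rw [sum_congr rfl fun g _ => e1 h g, sum_comm]
          refine sum_congr rfl fun m _ => ?_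
          rw [mul_sum, mul_sum]
      _ = _ := by
          rw [sum_comm]
          refine sum_congr rfl fun m _ => ?_
          rw [← mul_sum, ← sum_mul]
  rw [e2, add_pow, mul_sum]
  apply sum_le_sum
  intro m hm
  have hm' : m ≤ r := Nat.lt_succ_iff.1 (mem_range.1 hm)
  have e3 := moment κ φ h0 h1 p0 β r m hm' hr
  have e4 : 0 ≤ ∑ g, κ g * φ g ^ m := sum_nonneg fun g _ =>
    mul_nonneg (h0 g) (pow_nonneg (p0 g) m)
  have e5 : (∑ g, κ g * φ g ^ m) * (∑ g, κ g * φ g ^ m) ≤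
      4 * Real.exp (-(2 * β)) ^ m := by
    have := mul_le_mul e3 e3 e4 (by positivity)
    refine this.trans (le_of_eq ?_)
    have e6 : Real.exp (-(2 * β)) ^ m = Real.exp (-(β * m)) * Real.exp (-(β * m)) := by
      rw [← Real.exp_nat_mul, ← Real.exp_add]
      congr 1
      ring
    rw [e6]
    ring
  calc (δ ^ (r - m) * (r.choose m : ℝ)) * ((∑ g, κ g * φ g ^ m) * (∑ g, κ g * φ g ^ m)) ≤
        (δ ^ (r - m) * (r.choose m : ℝ)) * (4 * Real.exp (-(2 * β)) ^ m) :=
        mul_le_mul_of_nonneg_left e5 (by positivity)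
    _ = _ := by ring

end prob

/-- proportion of fixed points -/
noncomputable def ph {n : ℕ} (g : Perm (Fin n)) : ℝ :=
  ((univ.filter fun x => g x = x).card : ℝ) / n

theorem ph_nonneg {n : ℕ} (g : Perm (Fin n)) : 0 ≤ ph g := by
  unfold ph
  positivity

theorem ph_pow_le {n : ℕ} (hn : 0 < n) (r : ℕ) (hr : r ≤ n) (ρ : ℝ) (h0 : 0 < ρ) (h1 : ρ < 1)
    (g : Perm (Fin n)) :
    ph g ^ r ≤ ((r : ℝ) / ((1 - ρ) * n)) ^ r + (ρ⁻¹) ^ r * pf r g := by
  have hn0 : (0 : ℝ) < n := by exact_mod_cast hn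
  unfold ph pf
  obtain ⟨F, hF⟩ : ∃ F, F = (univ.filter fun x => g x = x).card := ⟨_, rfl⟩
  rw [← hF]
  have hD : (0 : ℝ) < (n.descFactorial r : ℝ) := by
    exact_mod_cast Nat.descFactorial_pos.2 hr
  have h3 : (0 : ℝ) < 1 - ρ := by linarith
  rcases le_or_gt ((1 - ρ) * (F : ℝ)) (r : ℝ) with h | h
  · have e1 : (F : ℝ) / n ≤ (r : ℝ) / ((1 - ρ) * n) := by
      rw [div_le_div_iff₀ hn0 (by positivity)]
      nlinarith
    have e2 : ((F : ℝ) / n) ^ r ≤ ((r : ℝ) / ((1 - ρ) * n)) ^ r :=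
      pow_le_pow_left₀ (by positivity) e1 r
    have e3 : 0 ≤ (ρ⁻¹) ^ r * ((F.descFactorial r : ℝ) / (n.descFactorial r : ℝ)) := by
      positivity
    linarith
  · have hFr : r ≤ F := by
      have : (r : ℝ) < F := by
        have : (0 : ℝ) ≤ F := Nat.cast_nonneg F
        nlinarith
      exact_mod_cast this.le
    have e1 : ρ * (F : ℝ) ≤ ((F - r : ℕ) : ℝ) := by
      rw [Nat.cast_sub hFr]
      linarith
    have e2 : (ρ * (F : ℝ)) ^ r ≤ (F.descFactorial r : ℝ) := by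
      have e3 := Nat.pow_sub_le_descFactorial F r
      have e4 : ((F + 1 - r : ℕ) : ℝ) ^ r ≤ (F.descFactorial r : ℝ) := by exact_mod_cast e3
      refine le_trans (pow_le_pow_left₀ (by positivity) (e1.trans ?_) r) e4
      have : F - r ≤ F + 1 - r := by omega
      exact_mod_cast this
    have e5 : (n.descFactorial r : ℝ) ≤ (n : ℝ) ^ r := by
      exact_mod_cast Nat.descFactorial_le_pow n r
    have e6 : ((F : ℝ) / n) ^ r ≤ (ρ⁻¹) ^ r * ((F.descFactorial r : ℝ) / (n.descFactorial r : ℝ)) := by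
      have hF0 : (0 : ℝ) ≤ (F.descFactorial r : ℝ) := Nat.cast_nonneg _
      calc ((F : ℝ) / n) ^ r = (ρ⁻¹) ^ r * ((ρ * F) ^ r / (n : ℝ) ^ r) := by
            rw [← div_pow, ← mul_pow]
            congr 1
            field_simp
        _ ≤ (ρ⁻¹) ^ r * ((F.descFactorial r : ℝ) / (n : ℝ) ^ r) := by
            apply mul_le_mul_of_nonneg_left _ (by positivity)
            exact div_le_div_of_nonneg_right e2 (by positivity)
        _ ≤ _ := by
            apply mul_le_mul_of_nonneg_left _ (by positivity)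
            exact div_le_div_of_nonneg_left hF0 hD e5
    have e7 : 0 ≤ ((r : ℝ) / ((1 - ρ) * n)) ^ r := by positivity
    linarith

/-- the averaged trace -/
theorem avg_le {n k : ℕ} (hk : 1 ≤ k) (r q s : ℕ) (hn : 0 < n) (hr : 2 * r ≤ n) (hq : 4 * q ≤ n)
    (z : Fin k → Alt n) (β : ℝ)
    (hβ : ∑ g : Perm (Fin n), lazyLaw z s g * ph g ^ r ≤ Real.exp (-(β * r))) :
    ∑ y : Alt n, ∑ h : Perm (Fin n), ∑ g : Perm (Fin n), lazyLaw z s h * lazyLaw z s g *
        pf r ((y : Perm (Fin n))⁻¹ * h * (y : Perm (Fin n)) * g) ≤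
      (2 ^ q / (q.factorial : ℝ) +
        4 * (Real.exp (-(2 * β)) + ((3 * q : ℕ) : ℝ) / ((n : ℝ) - r)) ^ r) * (n.factorial : ℝ) := by
  have hκ := Pool.Agent.Helper38.FS.lazyLaw_nonneg z s
  have hκ1 := Pool.Agent.Helper60.AK.LZ.lazy_sum z s hk
  have hnr : (0 : ℝ) < (n : ℝ) - r := by
    have h1 : (2 : ℝ) * r ≤ n := by exact_mod_cast hr
    have h2 : (0 : ℝ) < n := by exact_mod_cast hn
    have h3 : (0 : ℝ) ≤ r := Nat.cast_nonneg r
    rcases h3.lt_or_eq with h | h
    · linarith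
    · rw [← h]
      linarith
  have hpf : ∀ u : Perm (Fin n), 0 ≤ pf r u := fun u => by
    unfold pf
    positivity
  have h1 : ∑ y : Alt n, ∑ h : Perm (Fin n), ∑ g : Perm (Fin n), lazyLaw z s h * lazyLaw z s g *
        pf r ((y : Perm (Fin n))⁻¹ * h * (y : Perm (Fin n)) * g) ≤
      ∑ y : Perm (Fin n), ∑ h : Perm (Fin n), ∑ g : Perm (Fin n), lazyLaw z s h * lazyLaw z s g *
        pf r (y⁻¹ * h * y * g) := by
    have e1 : ∑ y : Alt n, ∑ h : Perm (Fin n), ∑ g : Perm (Fin n),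
        lazyLaw z s h * lazyLaw z s g *
          pf r ((y : Perm (Fin n))⁻¹ * h * (y : Perm (Fin n)) * g) =
        ∑ y ∈ (univ : Finset (Alt n)).map (Function.Embedding.subtype _),
          ∑ h : Perm (Fin n), ∑ g : Perm (Fin n), lazyLaw z s h * lazyLaw z s g *
            pf r (y⁻¹ * h * y * g) := by
      rw [sum_map]
      rfl
    rw [e1]
    apply sum_le_sum_of_subset_of_nonneg (subset_univ _)
    intro y _ _
    refine sum_nonneg fun h _ => sum_nonneg fun g _ => ?_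
    exact mul_nonneg (mul_nonneg (hκ h) (hκ g)) (hpf _)
  refine h1.trans ?_
  rw [sum_comm]
  have h2 : ∀ h : Perm (Fin n), ∑ y : Perm (Fin n), ∑ g : Perm (Fin n),
      lazyLaw z s h * lazyLaw z s g * pf r (y⁻¹ * h * y * g) ≤
      ∑ g : Perm (Fin n), lazyLaw z s h * lazyLaw z s g *
        ((2 ^ q / (q.factorial : ℝ) +
          (ph g * ph h + ((3 * q : ℕ) : ℝ) / ((n : ℝ) - r)) ^ r) * (n.factorial : ℝ)) := by
    intro h
    rw [sum_comm]
    apply sum_le_sum
    intro g _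
    rw [← mul_sum]
    apply mul_le_mul_of_nonneg_left _ (mul_nonneg (hκ h) (hκ g))
    exact sum_pf_le n r q hn hr hq g h
  refine (sum_le_sum fun h _ => h2 h).trans ?_
  have h3 := moment2 (lazyLaw z s) ph hκ hκ1 ph_nonneg β (((3 * q : ℕ) : ℝ) / ((n : ℝ) - r))
    (by positivity) r hβ
  have h4 : ∑ h : Perm (Fin n), ∑ g : Perm (Fin n), lazyLaw z s h * lazyLaw z s g *
        ((2 ^ q / (q.factorial : ℝ) +
          (ph g * ph h + ((3 * q : ℕ) : ℝ) / ((n : ℝ) - r)) ^ r) * (n.factorial : ℝ)) =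
      (2 ^ q / (q.factorial : ℝ)) * (n.factorial : ℝ) * ((∑ h : Perm (Fin n), lazyLaw z s h) *
        ∑ g : Perm (Fin n), lazyLaw z s g) +
      (n.factorial : ℝ) * ∑ h : Perm (Fin n), ∑ g : Perm (Fin n),
        lazyLaw z s h * lazyLaw z s g *
          (ph g * ph h + ((3 * q : ℕ) : ℝ) / ((n : ℝ) - r)) ^ r := by
    rw [sum_mul, mul_sum, mul_sum, ← sum_add_distrib]
    refine sum_congr rfl fun h _ => ?_
    rw [mul_sum, mul_sum, mul_sum, ← sum_add_distrib]
    refine sum_congr rfl fun g _ => ?_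
    ring
  rw [h4, hκ1, mul_one, mul_one]
  have hn1 : (0 : ℝ) ≤ (n.factorial : ℝ) := Nat.cast_nonneg _
  have h5 := mul_le_mul_of_nonneg_left h3 hn1
  linarith

/-- small factorials -/
theorem two_pow_div_fact_le (b : ℝ) (hb : 0 < b) (r q : ℕ) (h1 : r ≤ 4 * q)
    (h2 : 2 * Real.exp (12 * b) ≤ b * r) :
    (2 : ℝ) ^ q / (q.factorial : ℝ) ≤ Real.exp (-(2 * b * r)) := by
  have h3 := Real.pow_div_factorial_le_exp (2 * Real.exp (12 * b)) (by positivity) q
  have h4 : (2 * Real.exp (12 * b)) ^ q / (q.factorial : ℝ) =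
      (2 : ℝ) ^ q / (q.factorial : ℝ) * Real.exp (12 * b * q) := by
    rw [mul_pow, ← Real.exp_nat_mul]
    have : (q : ℝ) * (12 * b) = 12 * b * q := by ring
    rw [this]
    ring
  rw [h4] at h3
  have h5 : Real.exp (2 * Real.exp (12 * b)) ≤ Real.exp (-(2 * b * r)) * Real.exp (12 * b * q) := by
    rw [← Real.exp_add]
    apply Real.exp_le_exp.2
    have h6 : (r : ℝ) ≤ 4 * q := by exact_mod_cast h1
    nlinarith
  exact le_of_mul_le_mul_right (h3.trans h5) (Real.exp_pos _)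

theorem dbl (k a : ℕ) (b : ℝ) (hk : 1 ≤ k) (ha : 1 ≤ a) (hb : 0 < b) :
    ∃ a' : ℕ, 1 ≤ a' ∧ ∃ c : ℝ, 0 < c ∧ ∃ L₁ r₀ : ℕ, ∀ n r : ℕ, r₀ ≤ r → L₁ * r ≤ n →
      ∀ z : Fin k → Alt n, rp z (a * r) r ≤ Real.exp (-(b * r)) →
      ((univ.filter fun y : Alt n => Real.exp (-(3 / 2 * b * r)) <
        rp (Fin.snoc (α := fun _ => Alt n) z y) (a' * r) r).card : ℝ) ≤
      Real.exp (-(c * r)) * (Fintype.card (Alt n) : ℝ) := by
  have ha0 : (1 : ℝ) ≤ a := by exact_mod_cast ha
  have hk0 : (1 : ℝ) ≤ k := by exact_mod_cast hk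
  obtain ⟨θ, hθ⟩ : ∃ θ : ℝ, θ = min (1 / 2) (b / (128 * a)) := ⟨_, rfl⟩
  have hθ0 : 0 < θ := by
    rw [hθ]
    exact lt_min (by norm_num) (by positivity)
  have hθ1 : θ ≤ 1 / 2 := by
    rw [hθ]
    exact min_le_left _ _
  have hθ2 : 128 * a * θ ≤ b := by
    have : θ ≤ b / (128 * a) := by
      rw [hθ]
      exact min_le_right _ _
    rw [le_div_iff₀ (by positivity)] at this
    linarith
  obtain ⟨η, hη⟩ : ∃ η : ℝ, η = θ / (128 * (k + 1)) := ⟨_, rfl⟩
  have hη0 : 0 < η := by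
    rw [hη]
    positivity
  have hη' : η * (128 * (k + 1)) = θ := by
    rw [hη]
    field_simp
  have hη1 : η ≤ 1 := by nlinarith
  have hs1 : Real.sqrt (4 * (k + 1) * η) ≤ 1 / 4 := by
    rw [Real.sqrt_le_left (by norm_num)]
    nlinarith
  have hs2 : Real.sqrt (2 * η / θ) ≤ 1 / 8 := by
    rw [Real.sqrt_le_left (by norm_num), div_le_iff₀ hθ0]
    nlinarith
  obtain ⟨a', ha'⟩ : ∃ a', a' = ⌈2 * b / η⌉₊ + 1 := ⟨_, rfl⟩
  have ha'1 : 2 * b ≤ η * a' := by
    have h1 := Nat.le_ceil (2 * b / η)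
    rw [div_le_iff₀ hη0] at h1
    rw [ha']
    push_cast
    nlinarith
  obtain ⟨ρ, hρ⟩ : ∃ ρ : ℝ, ρ = Real.exp (-(b / 32)) := ⟨_, rfl⟩
  have hρ0 : 0 < ρ := by
    rw [hρ]
    exact Real.exp_pos _
  have hρ1 : ρ < 1 := by
    rw [hρ, Real.exp_lt_one_iff]
    linarith
  have hρi : ρ⁻¹ = Real.exp (b / 32) := by
    rw [hρ, ← Real.exp_neg]
    congr 1
    ring
  -- the size of `n / r`
  obtain ⟨gp, hgp⟩ : ∃ gp : ℝ, gp = Real.exp (-(7 / 4 * b)) - Real.exp (-(15 / 8 * b)) := ⟨_, rfl⟩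
  have hgp0 : 0 < gp := by
    rw [hgp, sub_pos]
    apply Real.exp_lt_exp.2
    linarith
  obtain ⟨L₁, hL₁⟩ := exists_nat_ge (max 4 (max (Real.exp b / (1 - ρ)) (2 / gp)))
  have hL4 : (4 : ℝ) ≤ L₁ := (le_max_left _ _).trans hL₁
  have hLa : Real.exp b / (1 - ρ) ≤ L₁ :=
    ((le_max_left _ _).trans (le_max_right _ _)).trans hL₁
  have hLb : 2 / gp ≤ L₁ := ((le_max_right _ _).trans (le_max_right _ _)).trans hL₁
  -- the size of `r`
  obtain ⟨r₀, hr₀⟩ := exists_nat_ge (max 12 (max (80 / b) (2 * Real.exp (12 * b) / b)))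
  refine ⟨a', by omega, b / 8, by positivity, L₁, r₀, ?_⟩
  intro n r hrr hLr z hz
  have hr1 : (max 12 (max (80 / b) (2 * Real.exp (12 * b) / b))) ≤ (r : ℝ) :=
    hr₀.trans (by exact_mod_cast hrr)
  have hr12 : (12 : ℝ) ≤ r := (le_max_left _ _).trans hr1
  have hr80 : 80 ≤ b * r := by
    have := ((le_max_left _ _).trans (le_max_right _ _)).trans hr1
    rw [div_le_iff₀ hb] at this
    linarith
  have hrx : 2 * Real.exp (12 * b) ≤ b * r := by
    have := ((le_max_right _ _).trans (le_max_right _ _)).trans hr1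
    rw [div_le_iff₀ hb] at this
    linarith
  have hr12' : 12 ≤ r := by exact_mod_cast hr12
  have hr0 : (0 : ℝ) < r := by linarith
  have hnL : (L₁ : ℝ) * r ≤ n := by exact_mod_cast hLr
  have h4n : 4 * r ≤ n := by
    have : (4 : ℝ) * r ≤ n := by nlinarith
    exact_mod_cast this
  have hn : 0 < n := by omega
  have hn0 : (0 : ℝ) < n := by exact_mod_cast hn
  have hrn : r ≤ n := by omega
  obtain ⟨q, hq⟩ : ∃ q, q = r / 3 := ⟨_, rfl⟩
  have hq1 : 3 * q ≤ r := by omega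
  have hq2 : r ≤ 4 * q := by omega
  have hq3 : 4 * q ≤ n := by omega
  obtain ⟨E, hE⟩ : ∃ E : ℝ → ℝ, E = fun x => Real.exp (-(x * b * r)) := ⟨_, rfl⟩
  have hEm : ∀ x y, E x * E y = E (x + y) := by
    intro x y
    rw [hE]
    simp only
    rw [← Real.exp_add]
    congr 1
    ring
  have hE0 : ∀ x, 0 < E x := fun x => by
    rw [hE]
    exact Real.exp_pos _
  have hE2 : 2 * E (1 / 32) ≤ 1 := by
    have h1 : Real.exp (-(1 / 32 * b * r)) * Real.exp (1 / 32 * b * r) = 1 := by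
      rw [← Real.exp_add, neg_add_cancel, Real.exp_zero]
    have h2 : 2 ≤ Real.exp (1 / 32 * b * r) := by
      have := Real.add_one_le_exp (1 / 32 * b * r)
      linarith
    have h3 : E (1 / 32) = Real.exp (-(1 / 32 * b * r)) := by rw [hE]
    have h4 := mul_le_mul_of_nonneg_left h2 (Real.exp_pos (-(1 / 32 * b * r))).le
    rw [h1, ← h3] at h4
    linarith
  have hE80 : 80 * E (1 / 16) ≤ 1 := by
    have h1 : Real.exp (-(1 / 16 * b * r)) * Real.exp (1 / 16 * b * r) = 1 := by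
      rw [← Real.exp_add, neg_add_cancel, Real.exp_zero]
    have h2 : 80 ≤ Real.exp (1 / 16 * b * r) := by
      have h4 : Real.exp 5 ≤ Real.exp (1 / 16 * b * r) := Real.exp_le_exp.2 (by linarith)
      have h5 : Real.exp 5 = Real.exp 1 ^ 5 := by
        rw [← Real.exp_nat_mul]
        norm_num
      have h6 : (2.7 : ℝ) ^ 5 ≤ Real.exp 1 ^ 5 :=
        pow_le_pow_left₀ (by norm_num) (by linarith [Real.exp_one_gt_d9]) 5
      have h7 : (80 : ℝ) ≤ 2.7 ^ 5 := by norm_num
      linarith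
    have h3 : E (1 / 16) = Real.exp (-(1 / 16 * b * r)) := by rw [hE]
    have h4 := mul_le_mul_of_nonneg_left h2 (Real.exp_pos (-(1 / 16 * b * r))).le
    rw [h1, ← h3] at h4
    linarith
  -- the moment of the proportion of the fixed points
  have hmom : ∑ g : Perm (Fin n), lazyLaw z (2 * (a * r)) g * ph g ^ r ≤
      Real.exp (-(15 / 16 * b * r)) := by
    have hκ := Pool.Agent.Helper38.FS.lazyLaw_nonneg z (2 * (a * r))
    have hκ1 := Pool.Agent.Helper60.AK.LZ.lazy_sum z (2 * (a * r)) hk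
    have h1 : rp z (2 * (a * r)) r ≤ Real.exp (-(b * r)) :=
      (rp_anti hk hrn z (by omega)).trans hz
    have h2 : ((r : ℝ) / ((1 - ρ) * n)) ^ r ≤ E 1 := by
      have h3 : (r : ℝ) / ((1 - ρ) * n) ≤ Real.exp (-b) := by
        rw [div_le_iff₀ (mul_pos (by linarith) hn0), Real.exp_neg]
        rw [div_le_iff₀ (by linarith)] at hLa
        have h4 : Real.exp b * r ≤ (1 - ρ) * n := by
          calc Real.exp b * r ≤ (L₁ * (1 - ρ)) * r := mul_le_mul_of_nonneg_right hLa hr0.le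
            _ = (1 - ρ) * (L₁ * r) := by ring
            _ ≤ _ := mul_le_mul_of_nonneg_left hnL (by linarith)
        rw [inv_mul_eq_div, le_div_iff₀ (Real.exp_pos _)]
        linarith
      have h5 := pow_le_pow_left₀ (div_nonneg hr0.le (mul_nonneg (by linarith) hn0.le)) h3 r
      refine h5.trans (le_of_eq ?_)
      rw [hE, ← Real.exp_nat_mul]
      simp only
      congr 1
      ring
    have h3 : (ρ⁻¹) ^ r = E (-(1 / 32)) := by
      rw [hρi, hE, ← Real.exp_nat_mul]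
      simp only
      congr 1
      ring
    have h4 : Real.exp (-(b * r)) = E 1 := by
      rw [hE]
      simp only
      rw [one_mul]
    calc ∑ g : Perm (Fin n), lazyLaw z (2 * (a * r)) g * ph g ^ r ≤
          ∑ g : Perm (Fin n), lazyLaw z (2 * (a * r)) g *
            (((r : ℝ) / ((1 - ρ) * n)) ^ r + (ρ⁻¹) ^ r * pf r g) :=
          sum_le_sum fun g _ => mul_le_mul_of_nonneg_left (ph_pow_le hn r hrn ρ hρ0 hρ1 g) (hκ g)
      _ = ((r : ℝ) / ((1 - ρ) * n)) ^ r * ∑ g : Perm (Fin n), lazyLaw z (2 * (a * r)) g +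
          (ρ⁻¹) ^ r * rp z (2 * (a * r)) r := by
          unfold rp pf
          rw [mul_sum, mul_sum, ← sum_add_distrib]
          exact sum_congr rfl fun g _ => by ring
      _ ≤ E 1 + E (-(1 / 32)) * E 1 := by
          rw [hκ1, mul_one, h3, ← h4]
          rw [h4] at h1 ⊢
          exact add_le_add h2 (mul_le_mul_of_nonneg_left h1 (hE0 _).le)
      _ ≤ E (31 / 32) + E (31 / 32) := by
          rw [hEm]
          have e1 : -(1 / 32) + 1 = (31 / 32 : ℝ) := by norm_num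
          rw [e1]
          have e2 : E 1 ≤ E (31 / 32) := by
            rw [hE]
            apply Real.exp_le_exp.2
            nlinarith
          linarith
      _ = (2 * E (1 / 32)) * E (15 / 16) := by
          rw [mul_assoc, hEm]
          norm_num
          ring
      _ ≤ 1 * E (15 / 16) := mul_le_mul_of_nonneg_right hE2 (hE0 _).le
      _ = _ := by
          rw [hE, one_mul]
  -- the averaged trace
  obtain ⟨T, hT⟩ : ∃ T : Alt n → ℝ, T = fun y : Alt n => ∑ h : Perm (Fin n),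
      ∑ g : Perm (Fin n), lazyLaw z (2 * (a * r)) h * lazyLaw z (2 * (a * r)) g *
        pf r ((y : Perm (Fin n))⁻¹ * h * (y : Perm (Fin n)) * g) := ⟨_, rfl⟩
  have hT0 : ∀ y, 0 ≤ T y := by
    intro y
    rw [hT]
    have hκ := Pool.Agent.Helper38.FS.lazyLaw_nonneg z (2 * (a * r))
    refine sum_nonneg fun h _ => sum_nonneg fun g _ => ?_
    refine mul_nonneg (mul_nonneg (hκ h) (hκ g)) ?_
    unfold pf
    positivity
  have hTs : ∑ y : Alt n, T y ≤ 5 * E (7 / 4) * (n.factorial : ℝ) := by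
    have h1 := avg_le hk r q (2 * (a * r)) hn (by omega) hq3 z (15 / 16 * b) hmom
    rw [hT]
    refine h1.trans (mul_le_mul_of_nonneg_right ?_ (Nat.cast_nonneg _))
    have h2 : (2 : ℝ) ^ q / (q.factorial : ℝ) ≤ E 2 := by
      rw [hE]
      exact two_pow_div_fact_le b hb r q hq2 hrx
    have h3 : E 2 ≤ E (7 / 4) := by
      rw [hE]
      apply Real.exp_le_exp.2
      nlinarith
    have h4 : (Real.exp (-(2 * (15 / 16 * b))) + ((3 * q : ℕ) : ℝ) / ((n : ℝ) - r)) ^ r ≤
        E (7 / 4) := by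
      have h5 : ((3 * q : ℕ) : ℝ) / ((n : ℝ) - r) ≤ gp := by
        have e1 : (4 : ℝ) * r ≤ n := by exact_mod_cast h4n
        have e2 : ((3 * q : ℕ) : ℝ) ≤ r := by exact_mod_cast hq1
        rw [div_le_iff₀ (by linarith)]
        rw [div_le_iff₀ hgp0] at hLb
        have e3 : 2 * (r : ℝ) ≤ gp * n := by
          calc 2 * (r : ℝ) ≤ (L₁ * gp) * r := mul_le_mul_of_nonneg_right hLb hr0.le
            _ = gp * (L₁ * r) := by ring
            _ ≤ _ := mul_le_mul_of_nonneg_left hnL hgp0.le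
        nlinarith
      have h6 : Real.exp (-(2 * (15 / 16 * b))) = Real.exp (-(15 / 8 * b)) := by
        congr 1
        ring
      have h7 : Real.exp (-(2 * (15 / 16 * b))) + ((3 * q : ℕ) : ℝ) / ((n : ℝ) - r) ≤
          Real.exp (-(7 / 4 * b)) := by
        rw [h6]
        linarith
      have h8 : 0 ≤ Real.exp (-(2 * (15 / 16 * b))) + ((3 * q : ℕ) : ℝ) / ((n : ℝ) - r) := by
        have e1 : (4 : ℝ) * r ≤ n := by exact_mod_cast h4n
        have e2 : (0 : ℝ) < (n : ℝ) - r := by linarith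
        positivity
      refine (pow_le_pow_left₀ h8 h7 r).trans (le_of_eq ?_)
      rw [hE, ← Real.exp_nat_mul]
      simp only
      congr 1
      ring
    linarith
  -- the bad generators
  have hbad : ∀ y ∈ (univ.filter fun y : Alt n => Real.exp (-(3 / 2 * b * r)) <
      rp (Fin.snoc (α := fun _ => Alt n) z y) (a' * r) r), 1 / 8 * E (25 / 16) ≤ T y := by
    intro y hy
    have hy' := (mem_filter.1 hy).2
    have h1 := trace_one n r k (a' * r) (a * r) hk hrn z y θ η hθ0 (by linarith) hη0.le hη1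
      (by linarith)
    have h2 : T y = ∑ h : Perm (Fin n),
      ∑ g : Perm (Fin n), lazyLaw z (2 * (a * r)) h * lazyLaw z (2 * (a * r)) g *
        pf r ((y : Perm (Fin n))⁻¹ * h * (y : Perm (Fin n)) * g) := by rw [hT]
    rw [← h2] at h1
    refine le_trans ?_ h1
    have h3 : (1 - η) ^ (a' * r) ≤ E 2 := by
      have e1 : 1 - η ≤ Real.exp (-η) := by
        have := Real.add_one_le_exp (-η)
        linarith
      have e2 := pow_le_pow_left₀ (by linarith : 0 ≤ 1 - η) e1 (a' * r)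
      refine e2.trans ?_
      rw [← Real.exp_nat_mul, hE]
      apply Real.exp_le_exp.2
      push_cast
      nlinarith
    have h4 : E (1 / 16) ≤ (1 - θ) ^ (4 * (a * r)) := by
      have e1 : Real.exp (-(2 * θ)) ≤ 1 - θ := by
        have e3 : 1 ≤ (1 - θ) * Real.exp (2 * θ) := by
          have e4 := Real.add_one_le_exp (2 * θ)
          nlinarith
        rw [Real.exp_neg, inv_le_iff_one_le_mul₀ (Real.exp_pos _)]
        exact e3
      have e2 := pow_le_pow_left₀ (Real.exp_pos _).le e1 (4 * (a * r))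
      refine le_trans ?_ e2
      rw [← Real.exp_nat_mul, hE]
      apply Real.exp_le_exp.2
      push_cast
      have e5 : 128 * a * θ * r ≤ b * r := mul_le_mul_of_nonneg_right hθ2 hr0.le
      nlinarith
    have h5 : (1 / 4 : ℝ) ≤
        (1 - Real.sqrt (4 * (k + 1) * η) - 2 * Real.sqrt (2 * η / θ)) ^ 2 := by
      have e1 : (1 / 2 : ℝ) ≤ 1 - Real.sqrt (4 * (k + 1) * η) - 2 * Real.sqrt (2 * η / θ) := by
        linarith
      nlinarith
    have h6 : E 2 ≤ 1 / 2 * E (3 / 2) := by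
      have e1 : E 2 = E (1 / 2) * E (3 / 2) := by
        rw [hEm]
        norm_num
      have e2 : E (1 / 2) ≤ E (1 / 32) := by
        rw [hE]
        apply Real.exp_le_exp.2
        nlinarith
      rw [e1]
      exact mul_le_mul_of_nonneg_right (by linarith) (hE0 _).le
    have h7 : E (3 / 2) < rp (Fin.snoc (α := fun _ => Alt n) z y) (a' * r) r := by
      rw [hE]
      exact hy'
    have h8 : 1 / 2 * E (3 / 2) ≤
        rp (Fin.snoc (α := fun _ => Alt n) z y) (a' * r) r - (1 - η) ^ (a' * r) := by linarith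
    calc 1 / 8 * E (25 / 16) = (1 / 2 * E (3 / 2)) * E (1 / 16) * (1 / 4) := by
          have e1 : E (25 / 16) = E (3 / 2) * E (1 / 16) := by
            rw [hEm]
            norm_num
          rw [e1]
          ring
      _ ≤ (rp (Fin.snoc (α := fun _ => Alt n) z y) (a' * r) r - (1 - η) ^ (a' * r)) *
          (1 - θ) ^ (4 * (a * r)) *
          (1 - Real.sqrt (4 * (k + 1) * η) - 2 * Real.sqrt (2 * η / θ)) ^ 2 := by
          have p1 := hE0 (3 / 2)
          have p2 := hE0 (1 / 16)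
          apply mul_le_mul _ h5 (by norm_num)
          · exact mul_nonneg (le_trans (by positivity) h8) (le_trans p2.le h4)
          · exact mul_le_mul h8 h4 p2.le (le_trans (by positivity) h8)
  -- Markov
  obtain ⟨B, hB⟩ : ∃ B, B = (univ.filter fun y : Alt n => Real.exp (-(3 / 2 * b * r)) <
      rp (Fin.snoc (α := fun _ => Alt n) z y) (a' * r) r) := ⟨_, rfl⟩
  rw [← hB] at hbad ⊢
  have h1 : (B.card : ℝ) * (1 / 8 * E (25 / 16)) ≤ ∑ y : Alt n, T y := by
    calc (B.card : ℝ) * (1 / 8 * E (25 / 16)) = ∑ y ∈ B, (1 / 8 * E (25 / 16)) := by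
          rw [sum_const, nsmul_eq_mul]
      _ ≤ ∑ y ∈ B, T y := sum_le_sum hbad
      _ ≤ _ := sum_le_sum_of_subset_of_nonneg (subset_univ _) fun y _ _ => hT0 y
  have hcard : (n.factorial : ℝ) = 2 * (Fintype.card (Alt n) : ℝ) := by
    have : Nontrivial (Fin n) := Fin.nontrivial_iff_two_le.2 (by omega)
    have h2 := two_mul_card_alternatingGroup (α := Fin n)
    rw [Fintype.card_perm, Fintype.card_fin] at h2
    exact_mod_cast h2.symm
  rw [hcard] at hTs
  have h2 : (B.card : ℝ) * (1 / 8 * E (25 / 16)) ≤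
      (10 * E (7 / 4)) * (Fintype.card (Alt n) : ℝ) := by linarith
  have h3 : E (7 / 4) = E (3 / 16) * E (25 / 16) := by
    rw [hEm]
    norm_num
  have h4 : (B.card : ℝ) ≤ 80 * E (3 / 16) * (Fintype.card (Alt n) : ℝ) := by
    have p := hE0 (25 / 16)
    have h5 : (B.card : ℝ) * E (25 / 16) ≤
        (80 * E (3 / 16) * (Fintype.card (Alt n) : ℝ)) * E (25 / 16) := by
      rw [h3] at h2
      linarith
    exact le_of_mul_le_mul_right h5 p
  refine h4.trans (mul_le_mul_of_nonneg_right ?_ (Nat.cast_nonneg _))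
  have h5 : Real.exp (-(b / 8 * r)) = E (1 / 8) := by
    rw [hE]
    simp only
    congr 1
    ring
  have h6 : E (3 / 16) = E (1 / 16) * E (1 / 8) := by
    rw [hEm]
    norm_num
  rw [h5, h6]
  have p := hE0 (1 / 8)
  nlinarith

end Pool.Agent.Helper83.FS
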