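import Pool.Agent.Helper10.FS.Two

/-!
# Doubling, part 1: the trace inequality for one system

If the lazy walk with the generators `(z, y)` has a large average return probability on injective
`r`-tuples then the word `y⁻¹ g₁ y g₀` with independent `g₀`, `g₁` of law `lazyLaw z (2 j)` fixes a
uniform injective `r`-tuple with large probability.
-/

set_option linter.unusedVariables false
set_option linter.unusedSectionVars false

namespace Pool.Agent.Helper83.FS

open Matrix Finset Equiv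
open Pool.Agent.Helper3.AK (Alt lazyLaw)
open Pool.Agent.Helper38.FS (rp)
open Pool.Agent.Helper10.FS

variable {X : Type} [Fintype X] [DecidableEq X] {n r K : ℕ}

/-- lower bound of the trace of the word operator, one system -/
theorem trace_single {K : ℕ} (hK : 1 ≤ K) (a : Fin K → Perm X) (Y : Perm X) (t N : ℕ)
    (θ η c : ℝ) (h0 : 0 < θ) (hη0 : 0 ≤ η) (hη1 : η ≤ 1) (hc0 : 0 ≤ c) (q : Polynomial ℝ)
    (hq : ∀ l : ℝ, 1 - θ ≤ l → l ≤ 1 → c ≤ q.eval l ^ 2)
    (hs : Real.sqrt (4 * (K + 1) * η) + 2 * Real.sqrt (4 * η / θ) ≤ 1) :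
    ((Lp (Fin.cons Y a : Fin (K + 1) → Perm X) ^ t).trace - (1 - η) ^ t * Fintype.card X) *
      c ^ (2 * N) *
      (1 - Real.sqrt (4 * (K + 1) * η) - 2 * Real.sqrt (4 * η / θ)) ^ (2 * N) ≤
      (((pm Y)ᵀ * (Polynomial.aeval (Wp a) q * Polynomial.aeval (Wp a) q) * pm Y *
        (Polynomial.aeval (Wp a) q * Polynomial.aeval (Wp a) q)) ^ N).trace := by
  have hK1 : 1 ≤ K + 1 := by omega
  have hKr : (0 : ℝ) < K := by positivity
  have hKr1 : (1 : ℝ) ≤ K := by exact_mod_cast hK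
  obtain ⟨d0, e, e1, e2, e3⟩ := fam (Lp_psd hK1 (Fin.cons Y a : Fin (K + 1) → Perm X))
    (Lp_le hK1 _) hη0 hη1 t
  have en : ∀ (v : X → ℝ), v ⬝ᵥ v = 1 →
      1 - η ≤ qf (Lp (Fin.cons Y a : Fin (K + 1) → Perm X)) v →
      (1 - qf (pm Y) v) + ∑ k, (1 - qf (pm (a k)) v) ≤ 2 * (K + 1) * η := by
    intro v hv hq
    have h := Lp_gap hK1 (Fin.cons Y a : Fin (K + 1) → Perm X) v
    rw [Fin.sum_univ_succ] at h
    simp only [Fin.cons_zero, Fin.cons_succ] at h
    rw [hv] at h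
    push_cast at h
    rw [h]
    have : (0 : ℝ) ≤ 2 * (K + 1) := by positivity
    nlinarith
  have ge0 : ∀ (σ : Perm X) (v : X → ℝ), v ⬝ᵥ v = 1 → 0 ≤ 1 - qf (pm σ) v := by
    intro σ v hv
    have := qf_pm_le σ v
    rw [hv] at this
    linarith
  have FP : ∀ p, 1 - 4 * η ≤ qf (Wp a) (e p) := by
    intro i
    have ve : e i ⬝ᵥ e i = 1 := by rw [e1, if_pos rfl]
    have hg := Wp_gap hK a (e i)
    rw [ve] at hg
    have h1 := en (e i) ve (e2 i)
    have h4 := ge0 Y _ ve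
    have h6 : (K : ℝ) * (1 - qf (Wp a) (e i)) ≤ K * (4 * η) := by
      rw [← hg]
      nlinarith
    have := le_of_mul_le_mul_left h6 (by positivity)
    linarith
  have FY : ∀ p, nrm (pm Y *ᵥ e p - e p) ≤ Real.sqrt (4 * (K + 1) * η) := by
    intro i
    have ve : e i ⬝ᵥ e i = 1 := by rw [e1, if_pos rfl]
    apply Real.le_sqrt_of_sq_le
    rw [nrm_pm_sub, ve]
    have h1 := en (e i) ve (e2 i)
    have h3 : 0 ≤ ∑ k, (1 - qf (pm (a k)) (e i)) := Finset.sum_nonneg fun k _ => ge0 _ _ ve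
    nlinarith
  have hYt : (pm Y)ᵀ * pm Y = 1 := by
    rw [pm_transpose, pm_mul, inv_mul_cancel, pm_one]
  have hYt' : pm Y * (pm Y)ᵀ = 1 := by
    rw [pm_transpose, pm_mul, mul_inv_cancel, pm_one]
  have main := trace_lower (Wp_sym a) (Wp_le hK _) hYt hYt' e e1 h0
    (by positivity : (0 : ℝ) ≤ 4 * η) (Real.sqrt_nonneg (4 * (K + 1) * η)) hc0 q hq FP FY hs N
  refine le_trans ?_ main
  rw [Fintype.card_fin]
  have p1 : (0 : ℝ) ≤ c ^ (2 * N) := pow_nonneg hc0 _
  have p2 : (0 : ℝ) ≤ (1 - Real.sqrt (4 * (K + 1) * η) - 2 * Real.sqrt (4 * η / θ)) ^ (2 * N) :=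
    pow_nonneg (by linarith) _
  apply mul_le_mul_of_nonneg_right _ p2
  apply mul_le_mul_of_nonneg_right _ p1
  linarith

/-- the trace of `y⁻¹ A y A` -/
theorem trace_conj {G : Type} [Group G] [Fintype G] (φ : G →* Perm X) (κ : G → ℝ) (y : G)
    (A : Matrix X X ℝ) (hA : A = ∑ g, κ g • pm (φ g)) :
    (((pm (φ y))ᵀ * A * pm (φ y) * A) ^ 1).trace =
      ∑ h : G, ∑ g : G, κ h * κ g * (fx (φ (y⁻¹ * h * y * g)) : ℝ) := by
  rw [pow_one, hA]
  simp only [Finset.mul_sum, Finset.sum_mul]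
  rw [Matrix.trace_sum, Finset.sum_comm]
  simp only [Matrix.trace_sum]
  refine Finset.sum_congr rfl fun h _ => Finset.sum_congr rfl fun g _ => ?_
  rw [pm_transpose]
  simp only [Matrix.mul_smul, Matrix.smul_mul, smul_smul, pm_mul, Matrix.trace_smul, trace_pm,
    smul_eq_mul]
  rw [← map_inv, ← map_mul, ← map_mul, ← map_mul]
  ring

/-- **TRACE** for one system -/
theorem trace_one (n r K t j : ℕ) (hK : 1 ≤ K) (hr : r ≤ n) (z : Fin K → Alt n) (y : Alt n)
    (θ η : ℝ) (h0 : 0 < θ) (h1 : θ ≤ 1) (hη0 : 0 ≤ η) (hη1 : η ≤ 1)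
    (hs : Real.sqrt (4 * (K + 1) * η) + 2 * Real.sqrt (2 * η / θ) ≤ 1) :
    (rp (Fin.snoc (α := fun _ => Alt n) z y) t r - (1 - η) ^ t) *
      (1 - θ) ^ (4 * j) *
      (1 - Real.sqrt (4 * (K + 1) * η) - 2 * Real.sqrt (2 * η / θ)) ^ 2 ≤
      ∑ h : Perm (Fin n), ∑ g : Perm (Fin n), lazyLaw z (2 * j) h * lazyLaw z (2 * j) g *
        pf r ((y : Perm (Fin n))⁻¹ * h * (y : Perm (Fin n)) * g) := by
  have hD : (0 : ℝ) < n.descFactorial r := by
    have := Nat.descFactorial_pos.2 hr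
    exact_mod_cast this
  set D : ℝ := (n.descFactorial r : ℝ) with hDdef
  have hcard : (Fintype.card (Fin r ↪ Fin n) : ℝ) = D := by
    rw [Fintype.card_embedding_eq, Fintype.card_fin, Fintype.card_fin]
  have hL : ∀ y : Alt n, (Lp (Fin.cons (emb n r (y : Perm (Fin n)))
      (fun i => emb n r (z i : Perm (Fin n))) : Fin (K + 1) → Perm (Fin r ↪ Fin n)) ^ t).trace =
      D * rp (Fin.snoc (α := fun _ => Alt n) z y) t r := by
    intro y
    rw [← Lp_snoc, ← trace_Lp]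
    congr 3
    funext i
    refine Fin.lastCases ?_ (fun i => ?_) i
    · simp only [Fin.snoc_last]
    · simp only [Fin.snoc_castSucc]
  set q : Polynomial ℝ := ((Polynomial.C (1 / 2 : ℝ)) * (1 + Polynomial.X)) ^ j with hq
  have hc : ∀ l : ℝ, 1 - 2 * θ ≤ l → l ≤ 1 → (1 - θ) ^ (2 * j) ≤ q.eval l ^ 2 := by
    intro l hl hl'
    rw [hq, Polynomial.eval_pow, Polynomial.eval_mul, Polynomial.eval_C, Polynomial.eval_add,
      Polynomial.eval_one, Polynomial.eval_X, ← pow_mul, mul_comm 2 j]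
    exact pow_le_pow_left₀ (by linarith) (by linarith) _
  have e1 : (4 : ℝ) * η / (2 * θ) = 2 * η / θ := by
    field_simp
    ring
  have hs' : Real.sqrt (4 * (K + 1) * η) + 2 * Real.sqrt (4 * η / (2 * θ)) ≤ 1 := by
    rw [e1]
    exact hs
  have main := trace_single hK (fun i => emb n r (z i : Perm (Fin n)))
    (emb n r (y : Perm (Fin n))) t 1 (2 * θ) η ((1 - θ) ^ (2 * j))
    (by linarith) hη0 hη1 (pow_nonneg (by linarith) _) q hc hs'
  have hA : Polynomial.aeval (Wp (fun k => emb n r (z k : Perm (Fin n)))) q *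
      Polynomial.aeval (Wp (fun k => emb n r (z k : Perm (Fin n)))) q =
      ∑ g, lazyLaw z (2 * j) g • pm (emb n r g) := by
    have h := lazy_rep z (emb n r) (2 * j)
    have h' := Lp_aeval (fun k => emb n r (z k : Perm (Fin n))) j
    rw [← hq] at h'
    rw [h', ← pow_add, ← two_mul]
    exact h.symm
  rw [trace_conj (emb n r) (lazyLaw z (2 * j)) (y : Perm (Fin n)) _ hA] at main
  rw [hL, hcard] at main
  rw [e1, ← pow_mul] at main
  have e2 : 2 * j * (2 * 1) = 4 * j := by ring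
  rw [e2, mul_one] at main
  have e3 : ∑ h : Perm (Fin n), ∑ g : Perm (Fin n), lazyLaw z (2 * j) h * lazyLaw z (2 * j) g *
        (fx (emb n r ((y : Perm (Fin n))⁻¹ * h * (y : Perm (Fin n)) * g)) : ℝ) =
      D * ∑ h : Perm (Fin n), ∑ g : Perm (Fin n), lazyLaw z (2 * j) h * lazyLaw z (2 * j) g *
        pf r ((y : Perm (Fin n))⁻¹ * h * (y : Perm (Fin n)) * g) := by
    rw [Finset.mul_sum]
    refine Finset.sum_congr rfl fun h _ => ?_
    rw [Finset.mul_sum]
    refine Finset.sum_congr rfl fun g _ => ?_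
    rw [fx_emb, pf, ← hDdef]
    field_simp
  rw [e3] at main
  have e4 : (D * rp (Fin.snoc (α := fun _ => Alt n) z y) t r - (1 - η) ^ t * D) *
      (1 - θ) ^ (4 * j) *
      (1 - Real.sqrt (4 * (K + 1) * η) - 2 * Real.sqrt (2 * η / θ)) ^ 2 =
      D * ((rp (Fin.snoc (α := fun _ => Alt n) z y) t r - (1 - η) ^ t) *
      (1 - θ) ^ (4 * j) *
      (1 - Real.sqrt (4 * (K + 1) * η) - 2 * Real.sqrt (2 * η / θ)) ^ 2) := by
    ring
  rw [e4] at main
  exact le_of_mul_le_mul_left main hD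

/-- average return probabilities decrease -/
theorem rp_anti {k : ℕ} (hk : 1 ≤ k) (hr : r ≤ n) (z : Fin k → Alt n) {s t : ℕ} (h : s ≤ t) :
    rp z t r ≤ rp z s r := by
  have hD : (0 : ℝ) < n.descFactorial r := by
    have := Nat.descFactorial_pos.2 hr
    exact_mod_cast this
  have h1 := trace_Lp (r := r) z s
  have h2 := trace_Lp (r := r) z t
  obtain ⟨U, d, u1, u2, u3, u4⟩ := spec_psd (Lp_psd hk (fun i => emb n r (z i : Perm (Fin n))))
  have d1 : ∀ i, d i ≤ 1 := by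
    intro i
    have := Lp_le hk (fun i => emb n r (z i : Perm (Fin n)))
      (Pool.Agent.Helper10.FS.col U i)
    rw [col_col u1, if_pos rfl, u3, qf_col u1] at this
    exact this
  rw [u3, pow_udu u1 u2, trace_udu u1] at h1 h2
  have h3 : ∑ i, d i ^ t ≤ ∑ i, d i ^ s :=
    Finset.sum_le_sum fun i _ => pow_le_pow_of_le_one (u4 i) (d1 i) h
  rw [h1, h2] at h3
  exact le_of_mul_le_mul_left h3 hD

end Pool.Agent.Helper83.FS
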