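import Pool.Agent.Helper83.FS.Dbl

/-!
# Doubling in the window of `S_DBL`
-/

set_option autoImplicit false

namespace Pool.Agent.Helper83.FS

open Finset Equiv Filter
open Pool.Agent.Helper3.AK (Alt lazyLaw)
open Pool.Agent.Helper38.FS (rp Win S_DBL)

theorem s_dbl : S_DBL := by
  intro k a b hk ha hb
  obtain ⟨a', ha', c, hc, L₁, r₀, h⟩ := dbl k a b hk ha hb
  refine ⟨a', ha', c, hc, ?_⟩
  have e1 : ∀ᶠ n : ℕ in atTop, (L₁ : ℝ) ≤ Real.log n :=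
    (Real.tendsto_log_atTop.comp tendsto_natCast_atTop_atTop).eventually_ge_atTop _
  have e2 : ∀ᶠ n : ℕ in atTop, (r₀ : ℝ) ≤ (n : ℝ) ^ (0.9 : ℝ) :=
    ((tendsto_rpow_atTop (by norm_num)).comp tendsto_natCast_atTop_atTop).eventually_ge_atTop _
  obtain ⟨n₀, hn₀⟩ := eventually_atTop.1 (e1.and (e2.and (eventually_ge_atTop 1)))
  refine ⟨n₀, fun n hn r hw z hz => ?_⟩
  obtain ⟨h1, h2, h3⟩ := hn₀ n hn
  obtain ⟨w1, w2, w3⟩ := hw
  have hr0 : (0 : ℝ) < r := by exact_mod_cast w1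
  have hn0 : (0 : ℝ) < n := by exact_mod_cast h3
  have hr : r₀ ≤ r := by
    rw [div_le_iff₀ hr0] at w3
    have h4 : (n : ℝ) = (n : ℝ) ^ (0.1 : ℝ) * (n : ℝ) ^ (0.9 : ℝ) := by
      rw [← Real.rpow_add hn0]
      norm_num
    have h5 : (n : ℝ) ^ (0.1 : ℝ) * (n : ℝ) ^ (0.9 : ℝ) ≤ (n : ℝ) ^ (0.1 : ℝ) * r := by
      rw [← h4]
      exact w3
    have h6 := le_of_mul_le_mul_left h5 (Real.rpow_pos_of_pos hn0 _)
    exact_mod_cast h2.trans h6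
  have hL : L₁ * r ≤ n := by
    rw [one_mul, le_div_iff₀ hr0] at w2
    have h4 : (L₁ : ℝ) * r ≤ n := (mul_le_mul_of_nonneg_right h1 hr0.le).trans w2
    exact_mod_cast h4
  exact h n r hr hL z hz

end Pool.Agent.Helper83.FS
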