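import Pool.Agent.Helper91.FS.Goals2
import Mathlib.NumberTheory.LegendreSymbol.QuadraticChar.Basic

/-! Packet FS-PSLX (MP_0130f7_co): the group PSL(2, K) on the projective line. -/

set_option autoImplicit false

namespace Pool.Agent.Helper83.FS

open Finset
open Pool.Agent.Helper47.SR (Grp mv lev)
open Pool.Agent.Helper91.FS
open scoped MatrixGroups

section
variable {K : Type} [Field K] [DecidableEq K]

/-- scaled matrices act in the same way -/
theorem smul_scaled (g h : GL (Fin 2) K) (c : K) (hc : c ≠ 0)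
    (hgh : ∀ i j, h i j = c * g i j) (x : OnePoint K) : h • x = g • x := by
  cases x with
  | infty =>
    rw [OnePoint.smul_infty_eq_ite, OnePoint.smul_infty_eq_ite, hgh 1 0, hgh 0 0]
    by_cases h0 : g 1 0 = 0
    · simp [h0]
    · simp only [h0, mul_eq_zero, hc, or_self, if_false]
      rw [mul_div_mul_left _ _ hc]
  | coe k =>
    rw [OnePoint.smul_some_eq_ite, OnePoint.smul_some_eq_ite, hgh 1 0, hgh 0 0, hgh 0 1, hgh 1 1]
    have e1 : c * g 1 0 * k + c * g 1 1 = c * (g 1 0 * k + g 1 1) := by ring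
    have e2 : c * g 0 0 * k + c * g 0 1 = c * (g 0 0 * k + g 0 1) := by ring
    rw [e1, e2]
    by_cases h0 : g 1 0 * k + g 1 1 = 0
    · simp [h0]
    · simp only [h0, mul_eq_zero, hc, or_self, if_false]
      rw [mul_div_mul_left _ _ hc]

variable {n : ℕ} (e : OnePoint K ≃ Fin n)

/-- a matrix whose determinant is a square acts as an element of `psl` -/
theorem mem_psl_of_square {γ : Equiv.Perm (Fin n)} (g : GL (Fin 2) K)
    (hγ : ∀ x, γ (e x) = e (g • x)) (hs : IsSquare (g : Matrix (Fin 2) (Fin 2) K).det) :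
    γ ∈ psl e := by
  obtain ⟨s, hs⟩ := hs
  have hdet : (g : Matrix (Fin 2) (Fin 2) K).det ≠ 0 := g.det_ne_zero
  have hs0 : s ≠ 0 := by
    rintro rfl
    rw [hs, mul_zero] at hdet
    exact hdet rfl
  let A : Matrix (Fin 2) (Fin 2) K := s⁻¹ • (g : Matrix (Fin 2) (Fin 2) K)
  have hA : A.det = 1 := by
    rw [Matrix.det_smul, hs, Fintype.card_fin]
    field_simp
  let h : GL (Fin 2) K := Matrix.GeneralLinearGroup.mkOfDetNeZero A (by rw [hA]; exact one_ne_zero)
  have hh : ∀ i j, h i j = s⁻¹ * g i j := fun i j => rfl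
  refine ⟨h, hA, fun x => ?_⟩
  rw [hγ, smul_scaled g h s⁻¹ (inv_ne_zero hs0) hh]

theorem square_mul [Finite K] {a b : K} (ha : ¬ IsSquare a) (hb : ¬ IsSquare b) :
    IsSquare (a * b) := by
  have := Fintype.ofFinite K
  have h1 := quadraticChar_neg_one_iff_not_isSquare.2 ha
  have h2 := quadraticChar_neg_one_iff_not_isSquare.2 hb
  have h3 : quadraticChar K (a * b) = 1 := by
    rw [map_mul, h1, h2]
    norm_num
  by_contra h
  rw [quadraticChar_neg_one_iff_not_isSquare.2 h] at h3
  norm_num at h3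

/-- `psl` is transitive on the pairs of different points -/
theorem exists_psl (a b : OnePoint K) (hab : a ≠ b) : ∃ g : GL (Fin 2) K,
    (g : Matrix (Fin 2) (Fin 2) K).det = 1 ∧ g • (OnePoint.infty : OnePoint K) = a ∧
      g • ((0 : K) : OnePoint K) = b := by
  have key : ∀ A : Matrix (Fin 2) (Fin 2) K, A.det = 1 → ∃ g : GL (Fin 2) K,
      (g : Matrix (Fin 2) (Fin 2) K).det = 1 ∧ ∀ i j, g i j = A i j := fun A hA =>
    ⟨Matrix.GeneralLinearGroup.mkOfDetNeZero A (by rw [hA]; exact one_ne_zero), hA,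
      fun i j => rfl⟩
  cases a with
  | infty =>
    cases b with
    | infty => exact absurd rfl hab
    | coe b =>
      obtain ⟨g, hg, h⟩ := key !![1, b; 0, 1] (by simp [Matrix.det_fin_two])
      refine ⟨g, hg, ?_, ?_⟩
      · rw [OnePoint.smul_infty_eq_ite, h]
        simp
      · rw [OnePoint.smul_some_eq_ite, h, h, h, h]
        simp
  | coe a =>
    cases b with
    | infty =>
      obtain ⟨g, hg, h⟩ := key !![a, -1; 1, 0] (by simp [Matrix.det_fin_two])
      refine ⟨g, hg, ?_, ?_⟩
      · rw [OnePoint.smul_infty_eq_ite, h, h]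
        simp
      · rw [OnePoint.smul_some_eq_ite, h, h, h, h]
        simp
    | coe b =>
      have hab' : a - b ≠ 0 := by
        intro h
        exact hab (by rw [sub_eq_zero.1 h])
      obtain ⟨g, hg, h⟩ := key !![a / (a - b), b; 1 / (a - b), 1] (by
        rw [Matrix.det_fin_two]
        simp
        field_simp)
      refine ⟨g, hg, ?_, ?_⟩
      · rw [OnePoint.smul_infty_eq_ite, h, h]
        simp [hab']
      · rw [OnePoint.smul_some_eq_ite, h, h, h, h]
        simp

end

theorem goal_PSLX : Goal_PSLX := by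
  intro n K _ _ e
  have hfin : Finite K := by
    have : Finite (OnePoint K) := Finite.of_equiv _ e.symm
    exact Finite.of_injective (fun x : K => (x : OnePoint K)) OnePoint.coe_injective
  refine ⟨?_, ?_, ?_, ?_⟩
  · rintro γ ⟨g, -, hg⟩
    exact ⟨g, hg⟩
  · rintro π ⟨g, hg⟩ π' ⟨g', hg'⟩ h1 h2
    refine mem_psl_of_square e (g * g') (fun x => ?_) ?_
    · rw [Equiv.Perm.mul_apply, hg', hg, mul_smul]
    · rw [Units.val_mul, Matrix.det_mul]
      exact square_mul (fun h => h1 (mem_psl_of_square e g hg h))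
        (fun h => h2 (mem_psl_of_square e g' hg' h))
  · -- two points
    have hone : ∀ a b : Fin n, a ≠ b → ∃ γ ∈ psl e, γ (e OnePoint.infty) = a ∧
        γ (e ((0 : K) : OnePoint K)) = b := by
      intro a b hab
      obtain ⟨g, hg, h1, h2⟩ := exists_psl (e.symm a) (e.symm b)
        (fun h => hab (e.symm.injective h))
      let γ : Equiv.Perm (Fin n) := e.symm.trans ((MulAction.toPerm g).trans e)
      have hγ : ∀ x, γ (e x) = e (g • x) := fun x => by simp [γ]
      exact ⟨γ, ⟨g, hg, hγ⟩, by rw [hγ, h1, e.apply_symm_apply], by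
        rw [hγ, h2, e.apply_symm_apply]⟩
    have hset : ∀ A ∈ lev n 2, ∃ γ ∈ psl e,
        mv γ {e OnePoint.infty, e ((0 : K) : OnePoint K)} = A := by
      intro A hA
      obtain ⟨a, b, hab, rfl⟩ := card_eq_two.1 (mem_powersetCard.1 hA).2
      obtain ⟨γ, hγ, h1, h2⟩ := hone a b hab
      refine ⟨γ, hγ, ?_⟩
      simp [mv, map_insert, h1, h2]
    intro A hA B hB
    obtain ⟨γ, hγ, h1⟩ := hset A hA
    obtain ⟨γ', hγ', h2⟩ := hset B hB
    refine ⟨γ' * γ⁻¹, (psl e).mul_mem hγ' ((psl e).inv_mem hγ), ?_⟩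
    rw [← h1, ← h2]
    ext x
    simp [mv]
  · have h : #({e OnePoint.infty, e ((0 : K) : OnePoint K), e ((1 : K) : OnePoint K)} :
        Finset (Fin n)) = 3 := by
      rw [card_eq_three]
      refine ⟨_, _, _, ?_, ?_, ?_, rfl⟩
      · exact fun h => OnePoint.infty_ne_coe _ (e.injective h)
      · exact fun h => OnePoint.infty_ne_coe _ (e.injective h)
      · exact fun h => zero_ne_one (OnePoint.coe_injective (e.injective h))
    rw [← h]
    exact (card_le_univ _).trans (by simp)

end Pool.Agent.Helper83.FS
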