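import Pool.Agent.Helper13.FS.StageC

/-!
# The stage lemma for two systems

Two systems `L0` on `X0`, `L1` on `X1` with the same letters; `prodL` is the diagonal action on
`X0 × X1`. If for a schedule two paths of the diagonal action with the same pattern rarely end at the
same point, then the average return probability of one of the two systems is small. The near-invariant
function is the product of near-invariant functions of the two systems.
-/

set_option autoImplicit false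
set_option linter.unusedSectionVars false

namespace Pool.Agent.Helper83.FS

open Finset Pool.Agent.Helper35.MP Pool.Agent.Helper13.FS

variable {X0 X1 Lam : Type*} [Fintype X0] [DecidableEq X0] [Fintype X1] [DecidableEq X1]
  [Fintype Lam] [DecidableEq Lam]

/-- two systems with the same inverse letters and the same trivial letter -/
structure Same (L0 : Letters X0 Lam) (L1 : Letters X1 Lam) : Prop where
  inv : ∀ l, L1.inv l = L0.inv l
  e : L1.e = L0.e

theorem Wt_same {L0 : Letters X0 Lam} {L1 : Letters X1 Lam} (h : Same L0 L1) {θ : ℝ} {S : Lam → ℝ}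
    (hS : Wt L0 θ S) : Wt L1 θ S :=
  ⟨hS.nn, hS.one, fun l => by rw [h.inv]; exact hS.sym l, by rw [h.e]; exact hS.lazy⟩

/-- the diagonal action -/
def prodL (L0 : Letters X0 Lam) (L1 : Letters X1 Lam) (h : Same L0 L1) :
    Letters (X0 × X1) Lam where
  act l := Equiv.prodCongr (L0.act l) (L1.act l)
  inv := L0.inv
  inv_inv := L0.inv_inv
  act_inv l := by
    ext x
    · simp [L0.act_inv]
    · have h1 : L1.act (L0.inv l) = (L1.act l)⁻¹ := by rw [← h.inv, L1.act_inv]
      simp [h1]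
  e := L0.e
  act_e := by
    ext x
    · simp [L0.act_e]
    · have h1 : L1.act L0.e = 1 := by rw [← h.e, L1.act_e]
      simp [h1]

theorem Wt_prod {L0 : Letters X0 Lam} {L1 : Letters X1 Lam} (h : Same L0 L1) {θ : ℝ} {S : Lam → ℝ}
    (hS : Wt L0 θ S) : Wt (prodL L0 L1 h) θ S :=
  ⟨hS.nn, hS.one, hS.sym, hS.lazy⟩

theorem pos_prod (L0 : Letters X0 Lam) (L1 : Letters X1 Lam) (h : Same L0 L1) :
    ∀ (M : ℕ) (ls : Fin M → Lam) (x : X0 × X1),
      pos (prodL L0 L1 h) M ls x = (pos L0 M ls x.1, pos L1 M ls x.2)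
  | 0, ls, x => rfl
  | M + 1, ls, x => by
    have h1 := pos_prod L0 L1 h M (fun k => ls k.succ) ((prodL L0 L1 h).act (ls 0) x)
    exact h1

/-- the error of a product of unit vectors -/
theorem tensor_err (g : Equiv.Perm X0) (h : Equiv.Perm X1) (v : X0 → ℝ) (u : X1 → ℝ)
    (hv : ∑ x, v x ^ 2 = 1) (hu : ∑ x, u x ^ 2 = 1) :
    ∑ p : X0 × X1, (v p.1 * u p.2 - v (g p.1) * u (h p.2)) ^ 2 ≤
      ∑ x, (v x - v (g x)) ^ 2 + ∑ x, (u x - u (h x)) ^ 2 := by
  have hvg : ∑ x, v (g x) ^ 2 = 1 := by rw [← hv]; exact Equiv.sum_comp g fun x => v x ^ 2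
  have huh : ∑ x, u (h x) ^ 2 = 1 := by rw [← hu]; exact Equiv.sum_comp h fun x => u x ^ 2
  have e0 : ∑ x, (v x - v (g x)) ^ 2 = 2 - 2 * ∑ x, v x * v (g x) := by
    calc ∑ x, (v x - v (g x)) ^ 2 = ∑ x, v x ^ 2 + ∑ x, v (g x) ^ 2 - 2 * ∑ x, v x * v (g x) := by
          rw [mul_sum, ← sum_add_distrib, ← sum_sub_distrib]
          exact sum_congr rfl fun x _ => by ring
      _ = _ := by rw [hv, hvg]; ring
  have e1 : ∑ x, (u x - u (h x)) ^ 2 = 2 - 2 * ∑ x, u x * u (h x) := by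
    calc ∑ x, (u x - u (h x)) ^ 2 = ∑ x, u x ^ 2 + ∑ x, u (h x) ^ 2 - 2 * ∑ x, u x * u (h x) := by
          rw [mul_sum, ← sum_add_distrib, ← sum_sub_distrib]
          exact sum_congr rfl fun x _ => by ring
      _ = _ := by rw [hu, huh]; ring
  have e2 : ∑ p : X0 × X1, (v p.1 * u p.2 - v (g p.1) * u (h p.2)) ^ 2 =
      2 - 2 * ((∑ x, v x * v (g x)) * ∑ x, u x * u (h x)) := by
    have a1 : (∑ x, v x ^ 2) * (∑ x, u x ^ 2) = ∑ p : X0 × X1, (v p.1 * u p.2) ^ 2 := by
      rw [Fintype.sum_prod_type, sum_mul]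
      apply sum_congr rfl
      intro x _
      rw [mul_sum]
      exact sum_congr rfl fun y _ => by ring
    have a2 : (∑ x, v (g x) ^ 2) * (∑ x, u (h x) ^ 2) =
        ∑ p : X0 × X1, (v (g p.1) * u (h p.2)) ^ 2 := by
      rw [Fintype.sum_prod_type, sum_mul]
      apply sum_congr rfl
      intro x _
      rw [mul_sum]
      exact sum_congr rfl fun y _ => by ring
    have a3 : (∑ x, v x * v (g x)) * (∑ x, u x * u (h x)) =
        ∑ p : X0 × X1, (v p.1 * u p.2) * (v (g p.1) * u (h p.2)) := by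
      rw [Fintype.sum_prod_type, sum_mul]
      apply sum_congr rfl
      intro x _
      rw [mul_sum]
      exact sum_congr rfl fun y _ => by ring
    rw [a3, mul_sum]
    calc ∑ p : X0 × X1, (v p.1 * u p.2 - v (g p.1) * u (h p.2)) ^ 2 =
          ∑ p : X0 × X1, (v p.1 * u p.2) ^ 2 + ∑ p : X0 × X1, (v (g p.1) * u (h p.2)) ^ 2 -
          ∑ p : X0 × X1, 2 * ((v p.1 * u p.2) * (v (g p.1) * u (h p.2))) := by
          rw [← sum_add_distrib, ← sum_sub_distrib]
          exact sum_congr rfl fun p _ => by ring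
      _ = _ := by rw [← a1, ← a2, hv, hu, hvg, huh]; ring
  have n0 : 0 ≤ ∑ x, (v x - v (g x)) ^ 2 := sum_nonneg fun _ _ => sq_nonneg _
  have n1 : 0 ≤ ∑ x, (u x - u (h x)) ^ 2 := sum_nonneg fun _ _ => sq_nonneg _
  rw [e2]
  have := mul_nonneg n0 n1
  rw [e0, e1] at *
  nlinarith

/-- normalisation of the near-invariant functions -/
theorem exists_unit {X : Type*} [Fintype X] [DecidableEq X] (L : Letters X Lam) {θ : ℝ} (hθ : 0 < θ)
    (S0 : Lam → ℝ) (hS0 : Wt L θ S0) {η : ℝ} {s : ℕ} {x : X} (ha : 0 < ret L S0 s x)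
    (hen : θ * ∑ l, S0 l * ∑ y, (hk L S0 s x y - hk L S0 s x (L.act l y)) ^ 2 ≤
      η * ret L S0 s x) :
    (∀ y, 0 ≤ hk L S0 s x y / Real.sqrt (ret L S0 s x)) ∧
    (∀ y, (hk L S0 s x y / Real.sqrt (ret L S0 s x)) ^ 2 = hk L S0 s x y ^ 2 / ret L S0 s x) ∧
    (∑ y, (hk L S0 s x y / Real.sqrt (ret L S0 s x)) ^ 2 = 1) ∧
    (∑ l, S0 l * ∑ y, (hk L S0 s x y / Real.sqrt (ret L S0 s x) -
      hk L S0 s x (L.act l y) / Real.sqrt (ret L S0 s x)) ^ 2 ≤ η / θ) := by
  obtain ⟨a, haa⟩ : ∃ a, a = ret L S0 s x := ⟨_, rfl⟩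
  rw [← haa] at ha hen ⊢
  have hsq : ∀ y, (hk L S0 s x y / Real.sqrt a) ^ 2 = hk L S0 s x y ^ 2 / a := fun y => by
    rw [div_pow, Real.sq_sqrt ha.le]
  refine ⟨fun y => div_nonneg (hk_nn L S0 hS0 _ _ _) (Real.sqrt_nonneg _), hsq, ?_, ?_⟩
  · rw [sum_congr rfl fun y _ => hsq y, ← sum_div]
    have : ∑ y, hk L S0 s x y ^ 2 = a := by
      rw [haa]
      rfl
    rw [this, div_self ha.ne']
  · rw [le_div_iff₀ hθ]
    have h3 : ∑ l, S0 l * ∑ y, (hk L S0 s x y / Real.sqrt a -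
        hk L S0 s x (L.act l y) / Real.sqrt a) ^ 2 =
        (∑ l, S0 l * ∑ y, (hk L S0 s x y - hk L S0 s x (L.act l y)) ^ 2) / a := by
      rw [sum_div]
      apply sum_congr rfl
      intro l _
      rw [mul_div_assoc, sum_div]
      congr 1
      apply sum_congr rfl
      intro y _
      rw [← sub_div, div_pow, Real.sq_sqrt ha.le]
    rw [h3, div_mul_eq_mul_div, div_le_iff₀ ha, mul_comm]
    exact hen

theorem supp_card {X : Type*} [Fintype X] [DecidableEq X] (L : Letters X Lam) (S0 : Lam → ℝ)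
    {s t : ℕ} (hst : s ≤ t) (x : X) :
    ((univ.filter fun y => hk L S0 s x y ≠ 0).card : ℝ) ≤ (Fintype.card Lam : ℝ) ^ t := by
  have h4 : (univ.filter fun y => hk L S0 s x y ≠ 0).card ≤ Fintype.card Lam ^ s :=
    card_supp L S0 s x
  have hl : 1 ≤ Fintype.card Lam := Fintype.card_pos_iff.2 ⟨L.e⟩
  have h5 : Fintype.card Lam ^ s ≤ Fintype.card Lam ^ t := Nat.pow_le_pow_right hl hst
  exact_mod_cast h4.trans h5

theorem sum_ret_le {X : Type*} [Fintype X] [DecidableEq X] (L : Letters X Lam) {θ : ℝ} (hθ : 0 < θ)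
    (S0 : Lam → ℝ) (hL : Wt L θ S0) (η : ℝ) (t : ℕ) (V : Finset X)
    (hV : V = univ.filter fun x => Real.exp (-(η * t)) < ret L S0 t x) :
    ∑ x, ret L S0 t x ≤ V.card + Fintype.card X * Real.exp (-(η * t)) := by
  have hret1 : ∀ x, ret L S0 t x ≤ 1 := fun x => by
    rw [← ret_zero L S0 x]
    exact ret_anti L S0 hL hθ.le x (Nat.zero_le t)
  calc ∑ x, ret L S0 t x = ∑ x ∈ V, ret L S0 t x + ∑ x with ¬ Real.exp (-(η * t)) <
        ret L S0 t x, ret L S0 t x := by
        rw [hV, sum_filter_add_sum_filter_not]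
    _ ≤ ∑ _x ∈ V, (1 : ℝ) + ∑ x with ¬ Real.exp (-(η * t)) < ret L S0 t x,
        Real.exp (-(η * t)) := by
        apply add_le_add (sum_le_sum fun x _ => hret1 x)
        apply sum_le_sum
        intro x hx
        rw [mem_filter] at hx
        exact not_lt.1 hx.2
    _ ≤ V.card + Fintype.card X * Real.exp (-(η * t)) := by
        rw [sum_const, sum_const, nsmul_eq_mul, nsmul_eq_mul, mul_one]
        have h3 : ((univ.filter fun x => ¬ Real.exp (-(η * t)) < ret L S0 t x).card : ℝ) ≤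
            Fintype.card X := by
          exact_mod_cast card_le_univ _
        have h4 := mul_le_mul_of_nonneg_right h3 (Real.exp_pos (-(η * t))).le
        linarith

/-- **The stage lemma for two systems.** -/
theorem stage2 (L0 : Letters X0 Lam) (L1 : Letters X1 Lam) (hs : Same L0 L1) {θ : ℝ} (hθ : 0 < θ)
    (S0 : Lam → ℝ) (hS0 : Wt L0 θ S0)
    {M : ℕ} (S : Fin M → Lam → ℝ) (hS : ∀ k, Wt L0 θ (S k)) {K : ℝ} (hK0 : 0 ≤ K)
    (hK : ∀ k l, l ≠ L0.e → S k l ≤ K * S0 l)
    (J : Fin M → Bool) (Bad : (Fin M → Lam) → Prop) [DecidablePred Bad]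
    (hBad : ∀ ls ls' : Fin M → Lam, (∀ k, J k = true → ls k = ls' k) → (Bad ls ↔ Bad ls'))
    {η : ℝ} (hη : 0 ≤ η) (t : ℕ) {ρ r : ℝ} (hρ : 0 < ρ)
    (hr : ∑ x, RR (prodL L0 L1 hs) S J Bad x ≤ r * (Fintype.card X0 * Fintype.card X1))
    (h1 : (Fintype.card Lam : ℝ) ^ (2 * t) * Real.sqrt ρ <
      1 / 2 * Real.exp (-(2 * (4 * (1 + 1 / θ) * (M * (K * (2 * (η / θ)))) + 1))))
    (h2 : ∑ ls : Fin M → Lam with Bad ls, ∏ k, S k (ls k) ≤
      Real.exp (-(4 * (4 * (1 + 1 / θ) * ((univ.filter fun k => J k = true).card *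
        (K * (2 * (η / θ)))) + 2)))) :
    (∑ x, ret L0 S0 t x) * (∑ x, ret L1 S0 t x) ≤
      (3 * Real.exp (-(η * t)) + 4 * t ^ 2 * Real.exp (2 * (η * t)) * (r / ρ)) *
        (Fintype.card X0 * Fintype.card X1) := by
  classical
  have hS1 : Wt L1 θ S0 := Wt_same hs hS0
  have hSp : ∀ k, Wt (prodL L0 L1 hs) θ (S k) := fun k => Wt_prod hs (hS k)
  obtain ⟨B, hB⟩ : ∃ B : Finset (X0 × X1),
      B = univ.filter fun x => ρ < RR (prodL L0 L1 hs) S J Bad x := ⟨_, rfl⟩
  obtain ⟨V0, hV0⟩ : ∃ V0 : Finset X0, V0 = univ.filter fun x =>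
      Real.exp (-(η * t)) < ret L0 S0 t x := ⟨_, rfl⟩
  obtain ⟨V1, hV1⟩ : ∃ V1 : Finset X1, V1 = univ.filter fun x =>
      Real.exp (-(η * t)) < ret L1 S0 t x := ⟨_, rfl⟩
  have hRR0 : ∀ x, 0 ≤ RR (prodL L0 L1 hs) S J Bad x := fun x => by
    unfold RR
    apply sum_nonneg
    intro a _
    apply sum_nonneg
    intro b _
    split_ifs
    · exact w2_nn (prodL L0 L1 hs) S hSp J a b
    · exact le_rfl
  have hBc : (B.card : ℝ) ≤ r / ρ * (Fintype.card X0 * Fintype.card X1) := by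
    rw [div_mul_eq_mul_div, le_div_iff₀ hρ]
    refine le_trans ?_ hr
    calc (B.card : ℝ) * ρ = ∑ _x ∈ B, ρ := by rw [sum_const, nsmul_eq_mul]
      _ ≤ ∑ x ∈ B, RR (prodL L0 L1 hs) S J Bad x := by
          apply sum_le_sum
          intro x hx
          rw [hB, mem_filter] at hx
          exact hx.2.le
      _ ≤ ∑ x, RR (prodL L0 L1 hs) S J Bad x := sum_le_univ_sum_of_nonneg fun x => hRR0 x
  have hVB : (V0.card : ℝ) * V1.card ≤ 4 * t ^ 2 * Real.exp (2 * (η * t)) * B.card := by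
    by_contra hcon
    push Not at hcon
    have hnear0 : ∀ x ∈ V0, ∃ s < t, Real.exp (-(η * t)) < ret L0 S0 s x ∧
        θ * ∑ l, S0 l * ∑ y, (hk L0 S0 s x y - hk L0 S0 s x (L0.act l y)) ^ 2 ≤
          η * ret L0 S0 s x := by
      intro x hx
      rw [hV0, mem_filter] at hx
      exact exists_near L0 hθ S0 hS0 hx.2
    have hnear1 : ∀ x ∈ V1, ∃ s < t, Real.exp (-(η * t)) < ret L1 S0 s x ∧
        θ * ∑ l, S0 l * ∑ y, (hk L1 S0 s x y - hk L1 S0 s x (L1.act l y)) ^ 2 ≤
          η * ret L1 S0 s x := by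
      intro x hx
      rw [hV1, mem_filter] at hx
      exact exists_near L1 hθ S0 hS1 hx.2
    choose! s0 hs0 using hnear0
    choose! s1 hs1 using hnear1
    -- a good start
    have hex : ∃ p ∈ V0 ×ˢ V1, ∑ y ∈ B, hk L0 S0 (s0 p.1) p.1 y.1 ^ 2 *
        hk L1 S0 (s1 p.2) p.2 y.2 ^ 2 ≤
        1 / 4 * (ret L0 S0 (s0 p.1) p.1 * ret L1 S0 (s1 p.2) p.2) := by
      by_contra hno
      push Not at hno
      have h3 : ((V0 ×ˢ V1).card : ℝ) * (1 / 4) ≤
          ∑ p ∈ V0 ×ˢ V1, Real.exp (2 * (η * t)) * ∑ i ∈ range t, ∑ j ∈ range t, ∑ y ∈ B,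
            hk L0 S0 i p.1 y.1 ^ 2 * hk L1 S0 j p.2 y.2 ^ 2 := by
        calc ((V0 ×ˢ V1).card : ℝ) * (1 / 4) = ∑ _p ∈ V0 ×ˢ V1, (1 / 4 : ℝ) := by
              rw [sum_const, nsmul_eq_mul]
          _ ≤ _ := by
            apply sum_le_sum
            intro p hp
            have hp' := mem_product.1 hp
            have h4 := (hs0 p.1 hp'.1).2.1
            have h4' := (hs1 p.2 hp'.2).2.1
            have h5 := hno p hp
            have h6 : ∑ y ∈ B, hk L0 S0 (s0 p.1) p.1 y.1 ^ 2 * hk L1 S0 (s1 p.2) p.2 y.2 ^ 2 ≤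
                ∑ i ∈ range t, ∑ j ∈ range t, ∑ y ∈ B,
                  hk L0 S0 i p.1 y.1 ^ 2 * hk L1 S0 j p.2 y.2 ^ 2 := by
              refine le_trans ?_ (single_le_sum (f := fun i => ∑ j ∈ range t, ∑ y ∈ B,
                hk L0 S0 i p.1 y.1 ^ 2 * hk L1 S0 j p.2 y.2 ^ 2)
                (fun i _ => sum_nonneg fun j _ => sum_nonneg fun y _ =>
                  mul_nonneg (sq_nonneg _) (sq_nonneg _)) (mem_range.2 (hs0 p.1 hp'.1).1))
              exact single_le_sum (f := fun j => ∑ y ∈ B,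
                hk L0 S0 (s0 p.1) p.1 y.1 ^ 2 * hk L1 S0 j p.2 y.2 ^ 2)
                (fun j _ => sum_nonneg fun y _ =>
                  mul_nonneg (sq_nonneg _) (sq_nonneg _)) (mem_range.2 (hs1 p.2 hp'.2).1)
            have h7 : Real.exp (2 * (η * t)) * (Real.exp (-(η * t)) * Real.exp (-(η * t))) = 1 := by
              rw [← Real.exp_add, ← Real.exp_add, ← Real.exp_zero]
              congr 1
              ring
            have h7' : Real.exp (-(η * t)) * Real.exp (-(η * t)) ≤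
                ret L0 S0 (s0 p.1) p.1 * ret L1 S0 (s1 p.2) p.2 :=
              mul_le_mul h4.le h4'.le (Real.exp_pos _).le ((Real.exp_pos _).le.trans h4.le)
            have h8 : 1 / 4 * (Real.exp (-(η * t)) * Real.exp (-(η * t))) ≤
                ∑ i ∈ range t, ∑ j ∈ range t, ∑ y ∈ B,
                  hk L0 S0 i p.1 y.1 ^ 2 * hk L1 S0 j p.2 y.2 ^ 2 := by linarith
            have h9 := mul_le_mul_of_nonneg_left h8 (Real.exp_pos (2 * (η * t))).le
            calc (1 / 4 : ℝ) = Real.exp (2 * (η * t)) *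
                  (1 / 4 * (Real.exp (-(η * t)) * Real.exp (-(η * t)))) := by
                  rw [mul_left_comm, h7]
                  ring
              _ ≤ _ := h9
      have h4 : ∑ p ∈ V0 ×ˢ V1, Real.exp (2 * (η * t)) * ∑ i ∈ range t, ∑ j ∈ range t,
          ∑ y ∈ B, hk L0 S0 i p.1 y.1 ^ 2 * hk L1 S0 j p.2 y.2 ^ 2 ≤
          Real.exp (2 * (η * t)) * (t * (t * B.card)) := by
        rw [← mul_sum]
        apply mul_le_mul_of_nonneg_left _ (Real.exp_pos _).le
        calc ∑ p ∈ V0 ×ˢ V1, ∑ i ∈ range t, ∑ j ∈ range t, ∑ y ∈ B,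
              hk L0 S0 i p.1 y.1 ^ 2 * hk L1 S0 j p.2 y.2 ^ 2 ≤
              ∑ p : X0 × X1, ∑ i ∈ range t, ∑ j ∈ range t, ∑ y ∈ B,
              hk L0 S0 i p.1 y.1 ^ 2 * hk L1 S0 j p.2 y.2 ^ 2 :=
              sum_le_univ_sum_of_nonneg fun p => sum_nonneg fun i _ => sum_nonneg fun j _ =>
                sum_nonneg fun y _ => mul_nonneg (sq_nonneg _) (sq_nonneg _)
          _ = ∑ i ∈ range t, ∑ j ∈ range t, ∑ y ∈ B, ∑ p : X0 × X1,
              hk L0 S0 i p.1 y.1 ^ 2 * hk L1 S0 j p.2 y.2 ^ 2 := by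
              rw [sum_comm]
              apply sum_congr rfl
              intro i _
              rw [sum_comm]
              exact sum_congr rfl fun j _ => sum_comm
          _ ≤ ∑ _i ∈ range t, ∑ _j ∈ range t, ∑ _y ∈ B, (1 : ℝ) := by
              refine sum_le_sum fun i _ => sum_le_sum fun j _ => sum_le_sum fun y _ => ?_
              have h5 : ∑ p : X0 × X1, hk L0 S0 i p.1 y.1 ^ 2 * hk L1 S0 j p.2 y.2 ^ 2 =
                  (∑ x, hk L0 S0 i x y.1 ^ 2) * ∑ x, hk L1 S0 j x y.2 ^ 2 := by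
                rw [Fintype.sum_prod_type, sum_mul]
                exact sum_congr rfl fun x _ => by rw [mul_sum]
              rw [h5]
              calc _ ≤ (1 : ℝ) * 1 := mul_le_mul (hk_col_sq L0 S0 hS0 i y.1)
                    (hk_col_sq L1 S0 hS1 j y.2) (sum_nonneg fun _ _ => sq_nonneg _) zero_le_one
                _ = 1 := one_mul 1
          _ = t * (t * B.card) := by simp
      have h5 := h3.trans h4
      rw [card_product] at h5
      push_cast at h5
      nlinarith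
    obtain ⟨p, hp, hxB⟩ := hex
    have hp' := mem_product.1 hp
    obtain ⟨hst0, hret0, hen0⟩ := hs0 p.1 hp'.1
    obtain ⟨hst1, hret1, hen1⟩ := hs1 p.2 hp'.2
    have ha0 : 0 < ret L0 S0 (s0 p.1) p.1 := lt_trans (Real.exp_pos _) hret0
    have ha1 : 0 < ret L1 S0 (s1 p.2) p.2 := lt_trans (Real.exp_pos _) hret1
    obtain ⟨u01, u02, u03, u04⟩ := exists_unit L0 hθ S0 hS0 ha0 hen0
    obtain ⟨u11, u12, u13, u14⟩ := exists_unit L1 hθ S0 hS1 ha1 hen1
    obtain ⟨v0, hv0⟩ : ∃ v0 : X0 → ℝ, v0 = fun y => hk L0 S0 (s0 p.1) p.1 y /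
        Real.sqrt (ret L0 S0 (s0 p.1) p.1) := ⟨_, rfl⟩
    obtain ⟨v1, hv1⟩ : ∃ v1 : X1 → ℝ, v1 = fun y => hk L1 S0 (s1 p.2) p.2 y /
        Real.sqrt (ret L1 S0 (s1 p.2) p.2) := ⟨_, rfl⟩
    replace u01 : ∀ y, 0 ≤ v0 y := by rw [hv0]; exact u01
    replace u11 : ∀ y, 0 ≤ v1 y := by rw [hv1]; exact u11
    replace u02 : ∀ y, v0 y ^ 2 = hk L0 S0 (s0 p.1) p.1 y ^ 2 / ret L0 S0 (s0 p.1) p.1 := by
      rw [hv0]; exact u02
    replace u12 : ∀ y, v1 y ^ 2 = hk L1 S0 (s1 p.2) p.2 y ^ 2 / ret L1 S0 (s1 p.2) p.2 := by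
      rw [hv1]; exact u12
    replace u03 : ∑ y, v0 y ^ 2 = 1 := by rw [hv0]; exact u03
    replace u13 : ∑ y, v1 y ^ 2 = 1 := by rw [hv1]; exact u13
    replace u04 : ∑ l, S0 l * ∑ y, (v0 y - v0 (L0.act l y)) ^ 2 ≤ η / θ := by
      rw [hv0]; exact u04
    replace u14 : ∑ l, S0 l * ∑ y, (v1 y - v1 (L1.act l y)) ^ 2 ≤ η / θ := by
      rw [hv1]; exact u14
    obtain ⟨v, hv⟩ : ∃ v : X0 × X1 → ℝ, ∀ y, v y = v0 y.1 * v1 y.2 := ⟨_, fun _ => rfl⟩
    have hvnn : ∀ y, 0 ≤ v y := fun y => by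
      rw [hv]
      exact mul_nonneg (u01 _) (u11 _)
    have hvone : ∑ y, v y ^ 2 = 1 := by
      calc ∑ y, v y ^ 2 = (∑ y, v0 y ^ 2) * ∑ y, v1 y ^ 2 := by
            rw [Fintype.sum_prod_type, sum_mul]
            apply sum_congr rfl
            intro x _
            rw [mul_sum]
            exact sum_congr rfl fun y _ => by rw [hv]; ring
        _ = 1 := by rw [u03, u13, one_mul]
    have hE : ∀ l, ∑ y, (v y - v ((prodL L0 L1 hs).act l y)) ^ 2 ≤
        ∑ y, (v0 y - v0 (L0.act l y)) ^ 2 + ∑ y, (v1 y - v1 (L1.act l y)) ^ 2 := by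
      intro l
      refine le_trans (le_of_eq ?_) (tensor_err (L0.act l) (L1.act l) v0 v1 u03 u13)
      apply sum_congr rfl
      intro y _
      rw [hv, hv]
      rfl
    have hd : ∀ k, ∑ l, S k l * ∑ y, (v y - v ((prodL L0 L1 hs).act l y)) ^ 2 ≤
        K * (2 * (η / θ)) := by
      intro k
      calc ∑ l, S k l * ∑ y, (v y - v ((prodL L0 L1 hs).act l y)) ^ 2 ≤
            ∑ l, K * (S0 l * ∑ y, (v0 y - v0 (L0.act l y)) ^ 2 +
              S0 l * ∑ y, (v1 y - v1 (L1.act l y)) ^ 2) := by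
            apply sum_le_sum
            intro l _
            by_cases hl : l = L0.e
            · have e0 : L0.act l = 1 := by rw [hl, L0.act_e]
              have e1 : L1.act l = 1 := by rw [hl, ← hs.e, L1.act_e]
              have e2 : (prodL L0 L1 hs).act l = 1 := by rw [hl]; exact (prodL L0 L1 hs).act_e
              rw [e0, e1, e2]
              simp
            · rw [← mul_add, ← mul_assoc]
              have hnn : 0 ≤ ∑ y, (v y - v ((prodL L0 L1 hs).act l y)) ^ 2 :=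
                sum_nonneg fun _ _ => sq_nonneg _
              calc S k l * ∑ y, (v y - v ((prodL L0 L1 hs).act l y)) ^ 2 ≤
                    (K * S0 l) * ∑ y, (v y - v ((prodL L0 L1 hs).act l y)) ^ 2 :=
                    mul_le_mul_of_nonneg_right (hK k l hl) hnn
                _ ≤ _ := mul_le_mul_of_nonneg_left (hE l) (mul_nonneg hK0 (hS0.nn l))
        _ = K * (∑ l, S0 l * ∑ y, (v0 y - v0 (L0.act l y)) ^ 2 +
              ∑ l, S0 l * ∑ y, (v1 y - v1 (L1.act l y)) ^ 2) := by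
            rw [← sum_add_distrib, mul_sum]
        _ ≤ K * (η / θ + η / θ) := mul_le_mul_of_nonneg_left (add_le_add u04 u14) hK0
        _ = _ := by ring
    have hA : 3 / 4 ≤ ∑ y with y ∉ B, v y ^ 2 := by
      have h3 : ∑ y ∈ B, v y ^ 2 ≤ 1 / 4 := by
        have e1 : ∀ y : X0 × X1, v y ^ 2 = hk L0 S0 (s0 p.1) p.1 y.1 ^ 2 *
            hk L1 S0 (s1 p.2) p.2 y.2 ^ 2 /
            (ret L0 S0 (s0 p.1) p.1 * ret L1 S0 (s1 p.2) p.2) := by
          intro y
          rw [hv, mul_pow, u02, u12, div_mul_div_comm]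
        rw [sum_congr rfl fun y _ => e1 y, ← sum_div, div_le_iff₀ (mul_pos ha0 ha1)]
        exact hxB
      have h4 : ∑ y with y ∉ B, v y ^ 2 + ∑ y ∈ B, v y ^ 2 = 1 := by
        rw [← hvone, ← sum_filter_add_sum_filter_not univ (fun y => y ∉ B) fun y => v y ^ 2]
        congr 1
        apply sum_congr _ fun _ _ => rfl
        ext y
        simp
      linarith
    have hsumd : ∑ _k : Fin M, K * (2 * (η / θ)) = M * (K * (2 * (η / θ))) := by
      rw [sum_const, card_univ, Fintype.card_fin, nsmul_eq_mul]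
    have hsumJ : (∑ k : Fin M, if J k then K * (2 * (η / θ)) else 0) =
        (univ.filter fun k => J k = true).card * (K * (2 * (η / θ))) := by
      rw [← sum_filter, sum_const, nsmul_eq_mul]
    have hmet := metropolis (prodL L0 L1 hs) hθ S hSp v hvnn hvone (fun _ => K * (2 * (η / θ)))
      hd J Bad hBad (fun y => y ∉ B) hA (by rw [hsumJ]; exact h2)
    rw [hsumd] at hmet
    have hcard : ((univ.filter fun y => 0 < v y).card : ℝ) ≤ (Fintype.card Lam : ℝ) ^ (2 * t) := by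
      have h3 : (univ.filter fun y => 0 < v y) ⊆
          (univ.filter fun y => hk L0 S0 (s0 p.1) p.1 y ≠ 0) ×ˢ
          (univ.filter fun y => hk L1 S0 (s1 p.2) p.2 y ≠ 0) := by
        intro y hy
        rw [mem_filter] at hy
        rw [mem_product, mem_filter, mem_filter]
        refine ⟨⟨mem_univ _, fun h => ?_⟩, ⟨mem_univ _, fun h => ?_⟩⟩
        · have h4 : v y = 0 := by rw [hv, hv0]; simp [h]
          rw [h4] at hy
          exact lt_irrefl _ hy.2
        · have h4 : v y = 0 := by rw [hv, hv1]; simp [h]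
          rw [h4] at hy
          exact lt_irrefl _ hy.2
      have h4 := card_le_card h3
      rw [card_product] at h4
      calc ((univ.filter fun y => 0 < v y).card : ℝ) ≤
            ((univ.filter fun y => hk L0 S0 (s0 p.1) p.1 y ≠ 0).card : ℝ) *
            (univ.filter fun y => hk L1 S0 (s1 p.2) p.2 y ≠ 0).card := by exact_mod_cast h4
        _ ≤ (Fintype.card Lam : ℝ) ^ t * (Fintype.card Lam : ℝ) ^ t :=
            mul_le_mul (supp_card L0 S0 hst0.le p.1) (supp_card L1 S0 hst1.le p.2)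
              (Nat.cast_nonneg _) (by positivity)
        _ = _ := by rw [← pow_add, two_mul]
    have hup : ∑ y with y ∉ B, v y ^ 2 * ∑ ls : Fin M → Lam with
        (¬ Bad ls ∧ 0 < v (pos (prodL L0 L1 hs) M ls y)), ∏ k, S k (ls k) ≤
        (Fintype.card Lam : ℝ) ^ (2 * t) * Real.sqrt ρ := by
      calc _ ≤ ∑ y with y ∉ B, v y ^ 2 * ((Fintype.card Lam : ℝ) ^ (2 * t) * Real.sqrt ρ) := by
            apply sum_le_sum
            intro y hy
            apply mul_le_mul_of_nonneg_left _ (sq_nonneg _)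
            rw [mem_filter, hB, mem_filter] at hy
            have hRy : RR (prodL L0 L1 hs) S J Bad y ≤ ρ := by
              by_contra h
              push Not at h
              exact hy.2 ⟨mem_univ _, h⟩
            refine (reach_le (prodL L0 L1 hs) S hSp J Bad y hRy fun z => 0 < v z).trans ?_
            exact mul_le_mul_of_nonneg_right hcard (Real.sqrt_nonneg _)
        _ = (∑ y with y ∉ B, v y ^ 2) * ((Fintype.card Lam : ℝ) ^ (2 * t) * Real.sqrt ρ) :=
            (sum_mul _ _ _).symm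
        _ ≤ 1 * ((Fintype.card Lam : ℝ) ^ (2 * t) * Real.sqrt ρ) := by
            apply mul_le_mul_of_nonneg_right _ (by positivity)
            rw [← hvone]
            exact sum_le_univ_sum_of_nonneg fun y => sq_nonneg _
        _ = _ := one_mul _
    linarith
  -- conclusion
  obtain ⟨q, hq⟩ : ∃ q, q = Real.exp (-(η * t)) := ⟨_, rfl⟩
  have hq0 : 0 ≤ q := by rw [hq]; exact (Real.exp_pos _).le
  have hq1 : q ≤ 1 := by
    rw [hq]
    apply Real.exp_le_one_iff.2
    have : 0 ≤ η * t := mul_nonneg hη (Nat.cast_nonneg _)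
    linarith
  have a0 := sum_ret_le L0 hθ S0 hS0 η t V0 hV0
  have a1 := sum_ret_le L1 hθ S0 hS1 η t V1 hV1
  rw [← hq] at a0 a1
  have c0 : (V0.card : ℝ) ≤ Fintype.card X0 := by exact_mod_cast card_le_univ _
  have c1 : (V1.card : ℝ) ≤ Fintype.card X1 := by exact_mod_cast card_le_univ _
  have n1 : 0 ≤ ∑ x, ret L1 S0 t x := sum_nonneg fun x _ => ret_nn L1 S0 t x
  have hB' : (V0.card : ℝ) * V1.card ≤ 4 * t ^ 2 * Real.exp (2 * (η * t)) *
      (r / ρ * (Fintype.card X0 * Fintype.card X1)) :=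
    hVB.trans (mul_le_mul_of_nonneg_left hBc (by positivity))
  calc (∑ x, ret L0 S0 t x) * (∑ x, ret L1 S0 t x) ≤
        (V0.card + Fintype.card X0 * q) * (V1.card + Fintype.card X1 * q) :=
        mul_le_mul a0 a1 n1 (by positivity)
    _ = (V0.card : ℝ) * V1.card + q * (V0.card * Fintype.card X1) +
        q * (Fintype.card X0 * V1.card) + q * q * (Fintype.card X0 * Fintype.card X1) := by ring
    _ ≤ 4 * t ^ 2 * Real.exp (2 * (η * t)) * (r / ρ * (Fintype.card X0 * Fintype.card X1)) +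
        q * (Fintype.card X0 * Fintype.card X1) + q * (Fintype.card X0 * Fintype.card X1) +
        q * 1 * (Fintype.card X0 * Fintype.card X1) := by
        have h5 : (V0.card : ℝ) * Fintype.card X1 ≤ Fintype.card X0 * Fintype.card X1 :=
          mul_le_mul_of_nonneg_right c0 (Nat.cast_nonneg _)
        have h6 : (Fintype.card X0 : ℝ) * V1.card ≤ Fintype.card X0 * Fintype.card X1 :=
          mul_le_mul_of_nonneg_left c1 (Nat.cast_nonneg _)
        have h7 := mul_le_mul_of_nonneg_left h5 hq0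
        have h8 := mul_le_mul_of_nonneg_left h6 hq0
        have h9 : q * q * ((Fintype.card X0 : ℝ) * Fintype.card X1) ≤
            q * 1 * ((Fintype.card X0 : ℝ) * Fintype.card X1) :=
          mul_le_mul_of_nonneg_right (mul_le_mul_of_nonneg_left hq1 hq0) (by positivity)
        linarith
    _ = _ := by rw [← hq]; ring

end Pool.Agent.Helper83.FS
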