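import Pool.Agent.Helper83.FS.Stage2

/-!
# The stage lemma for two systems acting on tuples
-/

set_option autoImplicit false
set_option linter.unusedSectionVars false

namespace Pool.Agent.Helper83.FS

open Finset Pool.Agent.Helper35.MP Pool.Agent.Helper13.FS

variable {X Lam : Type*} [Fintype X] [DecidableEq X] [Fintype Lam] [DecidableEq Lam]

theorem Same_tup {L0 L1 : Letters X Lam} (h : Same L0 L1) (m : ℕ) : Same (tup L0 m) (tup L1 m) :=
  ⟨h.inv, h.e⟩

/-- `RR` for pairs of tuples as an average over pairs of words with the same pattern -/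
theorem sum_RR_tup2 (L0 L1 : Letters X Lam) (hs : Same L0 L1) (m : ℕ) {M : ℕ}
    (S : Fin M → Lam → ℝ) (J : Fin M → Bool) (Bad : (Fin M → Lam) → Prop) [DecidablePred Bad] :
    ∑ x, RR (prodL (tup L0 m) (tup L1 m) (Same_tup hs m)) S J Bad x =
      ∑ a : Fin M → Lam, ∑ b : Fin M → Lam,
      if ¬ Bad a then w2 S J a b * (((fx ((wd L0 M b)⁻¹ * wd L0 M a)).descFactorial m : ℝ) *
        ((fx ((wd L1 M b)⁻¹ * wd L1 M a)).descFactorial m : ℝ)) else 0 := by
  rw [sum_RR]
  apply sum_congr rfl
  intro a _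
  apply sum_congr rfl
  intro b _
  congr 2
  have h1 : (univ.filter fun y => pos (prodL (tup L0 m) (tup L1 m) (Same_tup hs m)) M a y =
      pos (prodL (tup L0 m) (tup L1 m) (Same_tup hs m)) M b y) =
      (univ.filter fun y => pos (tup L0 m) M a y = pos (tup L0 m) M b y) ×ˢ
      (univ.filter fun y => pos (tup L1 m) M a y = pos (tup L1 m) M b y) := by
    ext y
    simp only [mem_filter, mem_univ, true_and, mem_product]
    rw [pos_prod, pos_prod]
    exact Prod.mk_inj
  rw [h1, card_product, agree_tup, agree_tup]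
  push_cast
  ring

/-- falling factorials of a smaller number -/
theorem descFactorial_small (n m A F : ℕ) (hn : 0 < n) (h : F + A ≤ n) :
    (F.descFactorial m : ℝ) ≤ Real.exp (-(m * A / n)) * (n.descFactorial m : ℝ) := by
  have hn' : (0 : ℝ) < n := by exact_mod_cast hn
  have h1 : ∀ j, (F.descFactorial j : ℝ) ≤ Real.exp (-(A / n)) ^ j * (n.descFactorial j : ℝ) := by
    intro j
    induction j with
    | zero => simp
    | succ j ih =>
      rw [Nat.descFactorial_succ, Nat.descFactorial_succ]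
      push_cast
      have h3 : ((F - j : ℕ) : ℝ) ≤ Real.exp (-(A / n)) * ((n - j : ℕ) : ℝ) := by
        rcases Nat.lt_or_ge F j with hF | hF
        · rw [Nat.sub_eq_zero_of_le hF.le, Nat.cast_zero]
          positivity
        · have hc1 : ((n - j : ℕ) : ℝ) = (n : ℝ) - j := by
            rw [Nat.cast_sub (by omega)]
          have hc2 : ((F - j : ℕ) : ℝ) = (F : ℝ) - j := by
            rw [Nat.cast_sub hF]
          rw [hc1, hc2]
          have h5 : (1 : ℝ) - A / n ≤ Real.exp (-(A / n)) := by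
            linarith [Real.add_one_le_exp (-((A : ℝ) / n))]
          have hjn : (j : ℝ) ≤ n := by
            have : j ≤ n := by omega
            exact_mod_cast this
          have hFA : (F : ℝ) + A ≤ n := by exact_mod_cast h
          have h6 : (F : ℝ) - j ≤ (1 - A / n) * (n - j) := by
            have h7 : (A : ℝ) / n * (n - j) ≤ A := by
              rw [div_mul_eq_mul_div, div_le_iff₀ hn']
              have : (0 : ℝ) ≤ A * j := by positivity
              nlinarith
            nlinarith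
          exact h6.trans (mul_le_mul_of_nonneg_right h5 (by linarith))
      calc ((F - j : ℕ) : ℝ) * (F.descFactorial j : ℝ) ≤
            (Real.exp (-(A / n)) * ((n - j : ℕ) : ℝ)) *
              (Real.exp (-(A / n)) ^ j * (n.descFactorial j : ℝ)) :=
            mul_le_mul h3 ih (by positivity) (by positivity)
        _ = _ := by
            rw [pow_succ]
            ring
  have h2 := h1 m
  rw [← Real.exp_nat_mul] at h2
  convert h2 using 3
  ring

theorem w2_sum (L : Letters X Lam) {θ : ℝ} {M : ℕ} (S : Fin M → Lam → ℝ)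
    (hS : ∀ k, Wt L θ (S k)) (J : Fin M → Bool) :
    ∑ a : Fin M → Lam, ∑ b : Fin M → Lam, w2 S J a b = 1 := by
  calc ∑ a : Fin M → Lam, ∑ b : Fin M → Lam, w2 S J a b =
        ∑ a : Fin M → Lam, (∏ k, S k (a k)) * ∑ b, cw S J b a := by
        apply sum_congr rfl
        intro a _
        rw [mul_sum]
        exact sum_congr rfl fun b _ => w2_eq S J a b
    _ = ∑ a : Fin M → Lam, ∏ k, S k (a k) := by
        apply sum_congr rfl
        intro a _
        rw [cw_sum L S hS J a, mul_one]
    _ = 1 := by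
        rw [← Fintype.prod_sum fun k l => S k l]
        exact prod_eq_one fun k _ => (hS k).one

/-- `RR` for pairs of tuples: it suffices that the quotients of the words rarely have small support in
both systems. -/
theorem sum_RR_le (L0 L1 : Letters X Lam) (hs : Same L0 L1) {θ : ℝ} (m : ℕ) {M : ℕ}
    (S : Fin M → Lam → ℝ) (hS : ∀ k, Wt L0 θ (S k)) (J : Fin M → Bool)
    (Bad : (Fin M → Lam) → Prop) [DecidablePred Bad] (A : ℕ) (hn : 0 < Fintype.card X) {κ : ℝ}
    (hκ : ∑ a : Fin M → Lam, ∑ b : Fin M → Lam,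
      (if ¬ Bad a ∧ Fintype.card X < fx ((wd L0 M b)⁻¹ * wd L0 M a) + A ∧
        Fintype.card X < fx ((wd L1 M b)⁻¹ * wd L1 M a) + A then w2 S J a b else 0) ≤ κ) :
    ∑ x, RR (prodL (tup L0 m) (tup L1 m) (Same_tup hs m)) S J Bad x ≤
      (κ + Real.exp (-(m * A / Fintype.card X))) *
        ((Fintype.card (Fin m ↪ X) : ℝ) * Fintype.card (Fin m ↪ X)) := by
  obtain ⟨n, hn'⟩ : ∃ n, n = Fintype.card X := ⟨_, rfl⟩
  obtain ⟨D, hD⟩ : ∃ D : ℝ, D = (n.descFactorial m : ℝ) := ⟨_, rfl⟩
  obtain ⟨q, hq⟩ : ∃ q : ℝ, q = Real.exp (-(m * A / n)) := ⟨_, rfl⟩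
  rw [sum_RR_tup2 L0 L1 hs, card_tup, ← hn', ← hD, ← hq]
  rw [← hn'] at hκ hn
  have hD0 : 0 ≤ D := by rw [hD]; exact Nat.cast_nonneg _
  have hq0 : 0 ≤ q := by rw [hq]; exact (Real.exp_pos _).le
  have hF : ∀ g : Equiv.Perm X, fx g ≤ n := fun g => by
    rw [hn']
    exact card_le_univ _
  have hFD : ∀ g : Equiv.Perm X, ((fx g).descFactorial m : ℝ) ≤ D := fun g => by
    rw [hD]
    exact_mod_cast Nat.descFactorial_le m (hF g)
  have hFq : ∀ g : Equiv.Perm X, ¬ n < fx g + A → ((fx g).descFactorial m : ℝ) ≤ q * D :=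
    fun g hg => by
      rw [hD, hq]
      exact descFactorial_small n m A (fx g) hn (by omega)
  calc _ ≤ ∑ a : Fin M → Lam, ∑ b : Fin M → Lam,
        ((if ¬ Bad a ∧ n < fx ((wd L0 M b)⁻¹ * wd L0 M a) + A ∧
          n < fx ((wd L1 M b)⁻¹ * wd L1 M a) + A then w2 S J a b else 0) * (D * D) +
          w2 S J a b * (q * (D * D))) := by
        apply sum_le_sum
        intro a _
        apply sum_le_sum
        intro b _
        have hw := w2_nn L0 S hS J a b
        have n0 : (0 : ℝ) ≤ ((fx ((wd L0 M b)⁻¹ * wd L0 M a)).descFactorial m : ℝ) :=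
          Nat.cast_nonneg _
        have n1 : (0 : ℝ) ≤ ((fx ((wd L1 M b)⁻¹ * wd L1 M a)).descFactorial m : ℝ) :=
          Nat.cast_nonneg _
        by_cases hb : Bad a
        · simp only [hb, not_true_eq_false, false_and, if_false, zero_mul, zero_add]
          positivity
        · simp only [hb, not_false_eq_true, true_and, if_true]
          split_ifs with hc
          · have h1 : ((fx ((wd L0 M b)⁻¹ * wd L0 M a)).descFactorial m : ℝ) *
                ((fx ((wd L1 M b)⁻¹ * wd L1 M a)).descFactorial m : ℝ) ≤ D * D :=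
              mul_le_mul (hFD _) (hFD _) n1 hD0
            have h2 := mul_le_mul_of_nonneg_left h1 hw
            have h3 : 0 ≤ w2 S J a b * (q * (D * D)) := by positivity
            linarith
          · rw [zero_mul, zero_add]
            apply mul_le_mul_of_nonneg_left _ hw
            by_cases h0 : n < fx ((wd L0 M b)⁻¹ * wd L0 M a) + A
            · have h1 : ¬ n < fx ((wd L1 M b)⁻¹ * wd L1 M a) + A := fun h => hc ⟨h0, h⟩
              calc _ ≤ D * (q * D) := mul_le_mul (hFD _) (hFq _ h1) n1 hD0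
                _ = _ := by ring
            · calc _ ≤ (q * D) * D := mul_le_mul (hFq _ h0) (hFD _) n1 (by positivity)
                _ = _ := by ring
    _ = (∑ a : Fin M → Lam, ∑ b : Fin M → Lam,
        (if ¬ Bad a ∧ n < fx ((wd L0 M b)⁻¹ * wd L0 M a) + A ∧
          n < fx ((wd L1 M b)⁻¹ * wd L1 M a) + A then w2 S J a b else 0)) * (D * D) +
        (∑ a : Fin M → Lam, ∑ b : Fin M → Lam, w2 S J a b) * (q * (D * D)) := by
        rw [sum_mul, sum_mul, ← sum_add_distrib]
        apply sum_congr rfl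
        intro a _
        rw [sum_mul, sum_mul, ← sum_add_distrib]
    _ ≤ κ * (D * D) + 1 * (q * (D * D)) := by
        rw [w2_sum L0 S hS J]
        have := mul_le_mul_of_nonneg_right hκ (mul_nonneg hD0 hD0)
        linarith
    _ = _ := by ring

/-- **The stage lemma for two systems acting on tuples.** `L0`, `L1` act on `X` (`n` points) with the
same letters. If, for two words with the same not bad pattern, the quotients have rarely less than
`A` moved points in both systems, then one of the two systems has small average return probabilities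
on the injective `m`-tuples. -/
theorem stage2_tup (L0 L1 : Letters X Lam) (hs : Same L0 L1) {θ : ℝ} (hθ : 0 < θ)
    (S0 : Lam → ℝ) (hS0 : Wt L0 θ S0)
    {M : ℕ} (S : Fin M → Lam → ℝ) (hS : ∀ k, Wt L0 θ (S k)) {K : ℝ} (hK0 : 0 ≤ K)
    (hK : ∀ k l, l ≠ L0.e → S k l ≤ K * S0 l)
    (J : Fin M → Bool) (Bad : (Fin M → Lam) → Prop) [DecidablePred Bad]
    (hBad : ∀ ls ls' : Fin M → Lam, (∀ k, J k = true → ls k = ls' k) → (Bad ls ↔ Bad ls'))
    {η : ℝ} (hη : 0 ≤ η) (m t A : ℕ) (hn : 0 < Fintype.card X) {ρ κ : ℝ} (hρ : 0 < ρ)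
    (hκ : ∑ a : Fin M → Lam, ∑ b : Fin M → Lam,
      (if ¬ Bad a ∧ Fintype.card X < fx ((wd L0 M b)⁻¹ * wd L0 M a) + A ∧
        Fintype.card X < fx ((wd L1 M b)⁻¹ * wd L1 M a) + A then w2 S J a b else 0) ≤ κ)
    (h1 : (Fintype.card Lam : ℝ) ^ (2 * t) * Real.sqrt ρ <
      1 / 2 * Real.exp (-(2 * (4 * (1 + 1 / θ) * (M * (K * (2 * (η / θ)))) + 1))))
    (h2 : ∑ ls : Fin M → Lam with Bad ls, ∏ k, S k (ls k) ≤
      Real.exp (-(4 * (4 * (1 + 1 / θ) * ((univ.filter fun k => J k = true).card *
        (K * (2 * (η / θ)))) + 2)))) :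
    (∑ x, ret (tup L0 m) S0 t x) * (∑ x, ret (tup L1 m) S0 t x) ≤
      (3 * Real.exp (-(η * t)) + 4 * t ^ 2 * Real.exp (2 * (η * t)) *
        ((κ + Real.exp (-(m * A / Fintype.card X))) / ρ)) *
        ((Fintype.card (Fin m ↪ X) : ℝ) * Fintype.card (Fin m ↪ X)) :=
  stage2 (tup L0 m) (tup L1 m) (Same_tup hs m) hθ S0 (Wt_tup L0 m hS0) S
    (fun k => Wt_tup L0 m (hS k)) hK0 hK J Bad hBad hη t hρ
    (sum_RR_le L0 L1 hs m S hS J Bad A hn hκ) h1 h2

end Pool.Agent.Helper83.FS
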